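import Pool.Agent.N103.Eng1
import Pool.Agent.Y229.SP4
import Pool.Agent.W574.LM.Eng

set_option autoImplicit false
set_option linter.unusedSectionVars false
set_option linter.unusedVariables false

/-! # Functional equations of hypersurfaces -/

namespace Pool.Agent.K9h41.TS

open MvPolynomial Pool.Agent.W574.SM Pool.Agent.W574.LM Pool.Agent.W574.HS
  Pool.Agent.W574.RO Pool.Agent.Y229 Pool.Agent.N103
open Pool.Agent.H628R4.TP (IsLocalBFunction)

/-- from sums over finite sets to sums over `Fin L` -/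
theorem exists_fin {α β : Type} (t : Finset α) (g : α → β) :
    ∃ (L : ℕ) (e : Fin L → α), ∀ {γ : Type} [AddCommMonoid γ] (F : α → γ),
      ∑ x ∈ t, F x = ∑ i, F (e i) := by
  classical
  refine ⟨t.card, fun i => (t.equivFin.symm i : α), fun F => ?_⟩
  rw [← Finset.sum_coe_sort t F]
  exact (Equiv.sum_comp t.equivFin.symm fun x : t => F (x : α)).symm

theorem single_eq {σ : Type} (f H : MvPolynomial σ ℂ) (b : Polynomial ℂ)
    (h : IsLocEq H (fun _ : Fin 1 => f) b) :
    ∃ (L : ℕ) (m : Fin L → ℕ) (Q : Fin L → weyl σ), ∀ s : ℕ,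
      H * (C (b.eval (s : ℂ)) * f ^ s) =
        ∑ i, ((s : ℂ) ^ m i) • (Q i : Module.End ℂ (MvPolynomial σ ℂ)) (f ^ (s + 1)) := by
  classical
  obtain ⟨S, P, hS, hP⟩ := h
  obtain ⟨L, e, he⟩ := exists_fin (S.sigma fun c => (P c).support)
    (fun x : (_ : Fin 1 → ℤ) × (Fin 1 →₀ ℕ) => x)
  refine ⟨L, fun i => (e i).2 0, fun i => P (e i).1 (e i).2, fun s => ?_⟩
  have h1 := hP (fun _ => s)
  simp only [Fin.sum_univ_one, Fin.prod_univ_one] at h1
  rw [h1, ← he (fun x => ((s : ℂ) ^ (x.2 0)) •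
    (P x.1 x.2 : Module.End ℂ (MvPolynomial σ ℂ)) (f ^ (s + 1))), Finset.sum_sigma]
  refine Finset.sum_congr rfl fun c hc => ?_
  have hc1 : c 0 = 1 := by
    have := hS c hc
    rwa [Fin.sum_univ_one] at this
  rw [applyAt, Finsupp.sum]
  refine Finset.sum_congr rfl fun β _ => ?_
  have h2 : ((s : ℤ) + c 0).toNat = s + 1 := by rw [hc1]; omega
  rw [Fin.prod_univ_one, hc1, if_neg (by norm_num), Nat.cast_one, map_one, one_mul, ← hc1, h2]

/-- a functional equation with a polynomial unit as one of a hypersurface -/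
theorem heq_of_locEq {σ : Type} (F H : MvPolynomial σ ℂ) (b : Polynomial ℂ)
    (h : IsLocEq H (fun _ : Fin 1 => F) b) : HEq H F b := by
  classical
  obtain ⟨L, m, Q, hQ⟩ := single_eq F H b h
  refine ⟨∑ i, Finsupp.single (m i) ⟨(Q i).1, (Q i).2⟩, fun s => ?_⟩
  rw [hQ s, ← Finsupp.sum_finsetSum_index]
  · refine Finset.sum_congr rfl fun i _ => ?_
    rw [Finsupp.sum_single_index]
    exact smul_zero _
  · intro a
    exact smul_zero _
  · intro a A B
    rw [← smul_add]
    rfl

/-- a functional equation with a polynomial unit as one of a principal ideal -/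
theorem locEq_single {σ : Type} (F H : MvPolynomial σ ℂ) (b : Polynomial ℂ)
    (P : ℕ →₀ Pool.Agent.H628R4.TP.weylS σ)
    (hP : ∀ s : ℕ, H * (MvPolynomial.C (b.eval (s : ℂ)) * F ^ s) =
      P.sum fun m Q => ((s : ℂ) ^ m) • (Q : Module.End ℂ (MvPolynomial σ ℂ)) (F ^ (s + 1))) :
    IsLocEq H (fun _ : Fin 1 => F) b := by
  classical
  refine ⟨{fun _ => 1}, fun _ => ∑ m ∈ P.support, Finsupp.single (Finsupp.single 0 m)
    ⟨(P m).1, (P m).2⟩, fun c hc => ?_, fun s => ?_⟩
  · rw [Finset.mem_singleton.1 hc]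
    simp
  · rw [Finset.sum_singleton, Fin.sum_univ_one, Fin.prod_univ_one, Fin.prod_univ_one,
      Fin.prod_univ_one, hP (s 0), applyAt, ← Finsupp.sum_finsetSum_index]
    · refine Finset.sum_congr rfl fun m _ => ?_
      rw [Finsupp.sum_single_index (by rw [ZeroMemClass.coe_zero, LinearMap.zero_apply, smul_zero])]
      rw [Fin.prod_univ_one, Finsupp.single_eq_same, if_neg (by norm_num), Nat.cast_one, map_one,
        one_mul]
      have e : ((s 0 : ℤ) + 1).toNat = s 0 + 1 := by omega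
      rw [e]
    · intro a
      rw [ZeroMemClass.coe_zero, LinearMap.zero_apply, smul_zero]
    · intro a A B
      rw [← smul_add]
      rfl

/-- the root `-1` -/
theorem sf_minus_one {σ : Type} [Finite σ] (F : MvPolynomial σ ℂ) (hF : F ≠ 0)
    (h0 : MvPolynomial.constantCoeff F = 0) : SF (fun _ : Fin 1 => F) 0 (-1) := by
  classical
  refine sf_of_local _ 0 (-1) (fun H b hb hH => ?_) (exists_fe _ ⟨0, hF⟩)
  obtain ⟨P, hP⟩ := heq_of_locEq F H b hb
  refine minus_one F H hF (fun hd => hH ?_) b P hP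
  obtain ⟨c, rfl⟩ := hd
  rw [MvPolynomial.eval_zero, map_mul, h0, zero_mul]

/-- a polynomial with a forced root vanishes -/
theorem zero_of_sf {σ : Type} (F : MvPolynomial σ ℂ) (s : ℂ)
    (h : SF (fun _ : Fin 1 => F) 0 s) : MvPolynomial.constantCoeff F = 0 := by
  classical
  have h1 : IsLocEq F (fun _ : Fin 1 => F) 1 := by
    refine locEq_single F F 1 (Finsupp.single 0 1) fun k => ?_
    rw [Finsupp.sum_single_index (by simp)]
    simp only [Polynomial.eval_one, map_one, one_mul, pow_zero, one_smul]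
    change F * F ^ k = F ^ (k + 1)
    rw [pow_succ']
  by_contra hne
  have h2 := h.locEq F 1 h1 (by rw [MvPolynomial.eval_zero]; exact hne)
  rw [Polynomial.eval_one] at h2
  exact one_ne_zero h2

/-- from forced roots to the local Bernstein-Sato polynomial -/
theorem root_of_sf {σ : Type} (hfin : Finite σ) (F : MvPolynomial σ ℂ) (hF : F ≠ 0) (s : ℂ)
    (h : SF (fun _ : Fin 1 => F) 0 s) (b : Polynomial ℂ) (hb : IsLocalBFunction F b) :
    b.eval s = 0 := by
  classical
  obtain ⟨H, P, hH, hP⟩ := algebraic_of_local F hF b hb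
  exact h.locEq H b (locEq_single F H b P hP) (by rw [MvPolynomial.eval_zero]; exact hH)

end Pool.Agent.K9h41.TS
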