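import Pool.Agent.N103.V.Ev
import Pool.Agent.Y230.TL.Stm

set_option autoImplicit false
set_option linter.unusedSectionVars false
set_option linter.unusedVariables false
set_option linter.unusedSimpArgs false

/-! # A reduced functional equation, evaluated at `-1` -/

namespace Pool.Agent.K9h41.TS

open MvPolynomial Pool.Agent.N103 Pool.Agent.N103.V Pool.Agent.Y230.TL

section Seq

variable {σ L : Type} [CommRing L] [Algebra ℂ L]
variable (φ : MvPolynomial σ ℂ →ₐ[ℂ] L) (D : σ → Derivation ℂ L L) (F : MvPolynomial σ ℂ) (Gi : L)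
  (U : Submodule ℂ L)

/-- sequences `g n = r(n) F ^ (n - k)` such that `r(-1) F ^ (-1 - k)` is a polynomial and
`r'(-1) F ^ (-1 - k)`, in the twisted module, is in `U` -/
def Sq (g : ℕ → MvPolynomial σ ℂ) : Prop :=
  ∃ (k : ℕ) (r : Polynomial (MvPolynomial σ ℂ)) (p : MvPolynomial σ ℂ),
    (∀ n : ℕ, F ^ k * g n = r.eval (n : MvPolynomial σ ℂ) * F ^ n) ∧
    r.eval (C (-1)) = F ^ (k + 1) * p ∧
    φ ((Polynomial.derivative r).eval (C (-1))) * Gi ^ k ∈ U

/-- the derivatives of the coefficients -/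
theorem exists_coeffD (i : σ) (r : Polynomial (MvPolynomial σ ℂ)) :
    ∃ p' : Polynomial (MvPolynomial σ ℂ),
      (∀ c : ℂ, pderiv i (r.eval (C c)) = p'.eval (C c)) ∧
      (∀ c : ℂ, pderiv i ((Polynomial.derivative r).eval (C c)) =
        (Polynomial.derivative p').eval (C c)) := by
  induction r using Polynomial.induction_on' with
  | add p q hp hq =>
    obtain ⟨p', hp, hp2⟩ := hp
    obtain ⟨q', hq, hq2⟩ := hq
    refine ⟨p' + q', fun n => ?_, fun n => ?_⟩
    · rw [Polynomial.eval_add, map_add, hp, hq, Polynomial.eval_add]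
    · rw [Polynomial.derivative_add, Polynomial.eval_add, map_add, hp2, hq2,
        Polynomial.derivative_add, Polynomial.eval_add]
  | monomial m a =>
    have key : ∀ (n : ℕ) (x : MvPolynomial σ ℂ) (c : ℂ),
        pderiv i ((Polynomial.monomial n x).eval (C c : MvPolynomial σ ℂ)) =
          (Polynomial.monomial n (pderiv i x)).eval (C c) := by
      intro n x c
      rw [Polynomial.eval_monomial, Polynomial.eval_monomial, ← C_pow, mul_comm, pderiv_C_mul,
        mul_comm]
    refine ⟨Polynomial.monomial m (pderiv i a), fun c => key m a c, fun c => ?_⟩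
    rw [Polynomial.derivative_monomial, key, Polynomial.derivative_monomial]
    congr 2
    rw [Derivation.leibniz, Derivation.map_natCast, smul_zero, zero_add, smul_eq_mul, mul_comm]

variable {φ D F Gi U}

theorem phi_mem (h1 : ∀ i, ∀ x ∈ U, φ (X i) * x ∈ U) (p : MvPolynomial σ ℂ) {x : L}
    (hx : x ∈ U) : φ p * x ∈ U := by
  induction p using MvPolynomial.induction_on with
  | C c =>
    have : φ (C c) = algebraMap ℂ L c := φ.commutes c
    rw [this, ← Algebra.smul_def]
    exact U.smul_mem _ hx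
  | add p q hp hq =>
    rw [map_add, add_mul]
    exact U.add_mem hp hq
  | mul_X p i hp =>
    rw [map_mul, mul_comm (φ p), mul_assoc]
    exact h1 i _ hp

theorem pow_cancel (hG : φ F * Gi = 1) (m : ℕ) : φ (F ^ m) * Gi ^ m = 1 := by
  rw [map_pow, ← mul_pow, hG, one_pow]

theorem sq_zero : Sq φ F Gi U (fun _ => 0) :=
  ⟨0, 0, 0, fun n => by simp, by simp, by simp⟩

theorem sq_add (hG : φ F * Gi = 1) {g g' : ℕ → MvPolynomial σ ℂ} (h : Sq φ F Gi U g)
    (h' : Sq φ F Gi U g') : Sq φ F Gi U (fun n => g n + g' n) := by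
  obtain ⟨k1, r1, p1, a1, b1, c1⟩ := h
  obtain ⟨k2, r2, p2, a2, b2, c2⟩ := h'
  refine ⟨k1 + k2, Polynomial.C (F ^ k2) * r1 + Polynomial.C (F ^ k1) * r2, p1 + p2,
    fun n => ?_, ?_, ?_⟩
  · rw [Polynomial.eval_add, Polynomial.eval_mul, Polynomial.eval_mul,
      Polynomial.eval_C, Polynomial.eval_C, pow_add]
    linear_combination F ^ k2 * a1 n + F ^ k1 * a2 n
  · rw [Polynomial.eval_add, Polynomial.eval_mul, Polynomial.eval_mul,
      Polynomial.eval_C, Polynomial.eval_C, b1, b2]
    ring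
  · have e : φ ((Polynomial.derivative (Polynomial.C (F ^ k2) * r1 +
        Polynomial.C (F ^ k1) * r2)).eval (C (-1))) * Gi ^ (k1 + k2) =
        φ ((Polynomial.derivative r1).eval (C (-1))) * Gi ^ k1 +
          φ ((Polynomial.derivative r2).eval (C (-1))) * Gi ^ k2 := by
      rw [Polynomial.derivative_add, Polynomial.derivative_C_mul, Polynomial.derivative_C_mul,
        Polynomial.eval_add, Polynomial.eval_mul, Polynomial.eval_mul, Polynomial.eval_C,
        Polynomial.eval_C, map_add, map_mul, map_mul, pow_add]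
      linear_combination (φ ((Polynomial.derivative r1).eval (C (-1))) * Gi ^ k1) *
        pow_cancel hG k2 + (φ ((Polynomial.derivative r2).eval (C (-1))) * Gi ^ k2) *
          pow_cancel hG k1
    rw [e]
    exact U.add_mem c1 c2

theorem sq_sum (hG : φ F * Gi = 1) {ι : Type} (S : Finset ι) (g : ι → ℕ → MvPolynomial σ ℂ)
    (h : ∀ i ∈ S, Sq φ F Gi U (g i)) : Sq φ F Gi U (fun n => ∑ i ∈ S, g i n) := by
  classical
  induction S using Finset.induction_on with
  | empty =>
    simp only [Finset.sum_empty]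
    exact sq_zero
  | insert i S hi ih =>
    simp only [Finset.sum_insert hi]
    exact sq_add hG (h i (Finset.mem_insert_self i S))
      (ih fun j hj => h j (Finset.mem_insert_of_mem hj))

theorem sq_smul {g : ℕ → MvPolynomial σ ℂ} (c : ℂ) (h : Sq φ F Gi U g) :
    Sq φ F Gi U (fun n => c • g n) := by
  obtain ⟨k, r, p, a1, b1, c1⟩ := h
  refine ⟨k, Polynomial.C (C c) * r, C c * p, fun n => ?_, ?_, ?_⟩
  · show F ^ k * (c • g n) = _
    rw [Polynomial.eval_mul, Polynomial.eval_C, ← C_mul']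
    linear_combination C c * a1 n
  · rw [Polynomial.eval_mul, Polynomial.eval_C, b1]
    ring
  · rw [Polynomial.derivative_C_mul, Polynomial.eval_mul, Polynomial.eval_C, map_mul, mul_assoc]
    have : φ (C c) = algebraMap ℂ L c := φ.commutes c
    rw [this, ← Algebra.smul_def]
    exact U.smul_mem _ c1

theorem sq_pow (h1 : ∀ i, ∀ x ∈ U, φ (X i) * x ∈ U) (h3 : φ F ∈ U) (hG : φ F * Gi = 1)
    {g : ℕ → MvPolynomial σ ℂ} (m : ℕ) (h : Sq φ F Gi U g) :
    Sq φ F Gi U (fun n => ((n : ℂ) ^ m) • g n) := by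
  obtain ⟨k, r, p, a1, b1, c1⟩ := h
  refine ⟨k, Polynomial.X ^ m * r, C ((-1) ^ m) * p, fun n => ?_, ?_, ?_⟩
  · show F ^ k * (((n : ℂ) ^ m) • g n) = _
    rw [Polynomial.eval_mul, Polynomial.eval_pow, Polynomial.eval_X, ← C_mul', C_pow]
    have : ((n : ℕ) : MvPolynomial σ ℂ) = C (n : ℂ) := by simp
    rw [← this]
    linear_combination (n : MvPolynomial σ ℂ) ^ m * a1 n
  · rw [Polynomial.eval_mul, Polynomial.eval_pow, Polynomial.eval_X, b1, C_pow]
    ring
  · have e : φ ((Polynomial.derivative (Polynomial.X ^ m * r)).eval (C (-1))) * Gi ^ k =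
        φ (C ((m : ℂ) * (-1) ^ (m - 1)) * p) * φ F + ((-1 : ℂ) ^ m) •
          (φ ((Polynomial.derivative r).eval (C (-1))) * Gi ^ k) := by
      rw [Polynomial.derivative_mul, Polynomial.derivative_X_pow, Polynomial.eval_add,
        Polynomial.eval_mul, Polynomial.eval_mul, Polynomial.eval_mul, Polynomial.eval_pow,
        Polynomial.eval_pow, Polynomial.eval_X, Polynomial.eval_C, b1, Algebra.smul_def]
      have e1 : (algebraMap ℂ L ((-1) ^ m)) = φ (C (-1) ^ m) := by
        rw [← C_pow]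
        exact (φ.commutes _).symm
      have e2 : (C ((m : ℂ) * (-1) ^ (m - 1)) : MvPolynomial σ ℂ) =
          (m : MvPolynomial σ ℂ) * C (-1) ^ (m - 1) := by
        rw [C_mul, C_pow]
        simp
      rw [e1, e2]
      simp only [map_add, map_mul, pow_succ]
      have e3 := pow_cancel hG k
      linear_combination (φ (m : MvPolynomial σ ℂ) * φ (C (-1) ^ (m - 1)) * φ F * φ p) * e3
    rw [e]
    exact U.add_mem (phi_mem h1 _ h3) (U.smul_mem _ c1)

theorem sq_X (h1 : ∀ i, ∀ x ∈ U, φ (X i) * x ∈ U) (i : σ) {g : ℕ → MvPolynomial σ ℂ}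
    (h : Sq φ F Gi U g) : Sq φ F Gi U (fun n => X i * g n) := by
  obtain ⟨k, r, p, a1, b1, c1⟩ := h
  refine ⟨k, Polynomial.C (X i) * r, X i * p, fun n => ?_, ?_, ?_⟩
  · rw [Polynomial.eval_mul, Polynomial.eval_C]
    linear_combination X i * a1 n
  · rw [Polynomial.eval_mul, Polynomial.eval_C, b1]
    ring
  · rw [Polynomial.derivative_C_mul, Polynomial.eval_mul, Polynomial.eval_C, map_mul, mul_assoc]
    exact h1 i _ c1

theorem sq_D (hD : ∀ i p, D i (φ p) = φ (pderiv i p)) (hG : φ F * Gi = 1)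
    (h1 : ∀ i, ∀ x ∈ U, φ (X i) * x ∈ U) (h2 : ∀ i, ∀ x ∈ U, nab φ D F Gi (-1) i x ∈ U)
    (h4 : ∀ i, φ (pderiv i F) ∈ U) (i : σ) {g : ℕ → MvPolynomial σ ℂ}
    (h : Sq φ F Gi U g) : Sq φ F Gi U (fun n => pderiv i (g n)) := by
  obtain ⟨k, r, p, a1, b1, c1⟩ := h
  obtain ⟨p', hp', hp2⟩ := exists_coeffD i r
  refine ⟨k + 1, Polynomial.C F * p' + Polynomial.X * r * Polynomial.C (pderiv i F) -
    Polynomial.C ((k : MvPolynomial σ ℂ) * pderiv i F) * r, pderiv i p, fun n => ?_, ?_, ?_⟩
  · have hn : ((n : ℕ) : MvPolynomial σ ℂ) = C (n : ℂ) := by simp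
    have h0 := congrArg (pderiv i) (a1 n)
    have hp'' : pderiv i (r.eval (n : MvPolynomial σ ℂ)) = p'.eval (n : MvPolynomial σ ℂ) := by
      rw [hn]
      exact hp' n
    rw [Derivation.leibniz, Derivation.leibniz, Derivation.leibniz_pow, Derivation.leibniz_pow,
      smul_eq_mul, smul_eq_mul, hp'', smul_eq_mul, smul_eq_mul, smul_eq_mul, smul_eq_mul,
      nsmul_eq_mul, nsmul_eq_mul] at h0
    have h2 : ∀ m : ℕ, F * ((m : MvPolynomial σ ℂ) * F ^ (m - 1)) = m * F ^ m := by
      intro m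
      rcases m with _ | m
      · simp
      · rw [Nat.add_sub_cancel, pow_succ]; ring
    rw [Polynomial.eval_sub, Polynomial.eval_add, Polynomial.eval_mul, Polynomial.eval_mul,
      Polynomial.eval_mul, Polynomial.eval_mul, Polynomial.eval_C, Polynomial.eval_C,
      Polynomial.eval_C, Polynomial.eval_X, pow_succ]
    linear_combination F * h0 + (r.eval (n : MvPolynomial σ ℂ) * pderiv i F) * h2 n -
      g n * pderiv i F * h2 k - (k : MvPolynomial σ ℂ) * pderiv i F * a1 n
  · have h0 := congrArg (pderiv i) b1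
    rw [hp', Derivation.leibniz, Derivation.leibniz_pow, smul_eq_mul, smul_eq_mul, smul_eq_mul,
      nsmul_eq_mul, Nat.add_sub_cancel] at h0
    rw [Polynomial.eval_sub, Polynomial.eval_add, Polynomial.eval_mul, Polynomial.eval_mul,
      Polynomial.eval_mul, Polynomial.eval_mul, Polynomial.eval_C, Polynomial.eval_C,
      Polynomial.eval_C, Polynomial.eval_X, h0, b1]
    push_cast
    rw [map_neg, map_one]
    ring
  · have e : φ ((Polynomial.derivative (Polynomial.C F * p' +
        Polynomial.X * r * Polynomial.C (pderiv i F) -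
          Polynomial.C ((k : MvPolynomial σ ℂ) * pderiv i F) * r)).eval (C (-1))) * Gi ^ (k + 1) =
        nab φ D F Gi (-1) i (φ ((Polynomial.derivative r).eval (C (-1))) * Gi ^ k) +
          φ p * φ (pderiv i F) := by
      have hm1 : (C (-1) : MvPolynomial σ ℂ) = -1 := by rw [map_neg, map_one]
      rw [nab_apply, Derivation.leibniz, smul_eq_mul, smul_eq_mul, hD, hp2,
        D_Gi_pow φ D F Gi hG, hD]
      rw [hm1] at b1 ⊢
      simp only [Polynomial.derivative_natCast, Polynomial.eval_natCast,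
        Polynomial.derivative_sub, Polynomial.derivative_add, Polynomial.derivative_mul,
        Polynomial.derivative_C, Polynomial.derivative_X, Polynomial.eval_sub, Polynomial.eval_add,
        Polynomial.eval_mul, Polynomial.eval_C, Polynomial.eval_X, Polynomial.eval_zero,
        Polynomial.eval_one, zero_mul, mul_zero, zero_add, add_zero, one_mul, b1, map_sub, map_add,
        map_mul, map_pow, map_neg, map_one, map_natCast]
      have e3 := pow_cancel hG k
      rw [map_pow] at e3
      set q := (Polynomial.derivative p').eval (-1) with hq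
      set w := (Polynomial.derivative r).eval (-1) with hw
      have e4 : φ F ^ (k + 1) * Gi ^ (k + 1) = 1 := by rw [← mul_pow, hG, one_pow]
      have e5 : (Gi : L) ^ (k + 1) = Gi ^ k * Gi := pow_succ _ _
      linear_combination (φ q * Gi ^ k) * hG + (φ p * φ (pderiv i F)) * e4 +
        (φ F * φ q - φ w * φ (pderiv i F) - (k : L) * φ (pderiv i F) * φ w) * e5
    rw [e]
    exact U.add_mem (h2 i _ c1) (phi_mem h1 _ (h4 i))

theorem sq_weyl (hD : ∀ i p, D i (φ p) = φ (pderiv i p)) (hG : φ F * Gi = 1)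
    (h1 : ∀ i, ∀ x ∈ U, φ (X i) * x ∈ U) (h2 : ∀ i, ∀ x ∈ U, nab φ D F Gi (-1) i x ∈ U)
    (h4 : ∀ i, φ (pderiv i F) ∈ U) (Q : Module.End ℂ (MvPolynomial σ ℂ))
    (hQ : Q ∈ Pool.Agent.H628R4.TP.weylS σ) :
    ∀ g : ℕ → MvPolynomial σ ℂ, Sq φ F Gi U g → Sq φ F Gi U (fun n => Q (g n)) := by
  induction hQ using Algebra.adjoin_induction with
  | mem Q hQ =>
    rcases hQ with ⟨i, rfl⟩ | ⟨i, rfl⟩
    · exact fun g h => sq_X h1 i h
    · exact fun g h => sq_D hD hG h1 h2 h4 i h
  | algebraMap c => exact fun g h => sq_smul c h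
  | add Q1 Q2 _ _ hA hB => exact fun g h => sq_add hG (hA g h) (hB g h)
  | mul Q1 Q2 _ _ hA hB => exact fun g h => hA _ (hB g h)

end Seq

/-- **The reduced functional equation, evaluated at `-1`.** -/
theorem ev_of_re {σ : Type} {F : MvPolynomial σ ℂ} (hF : F ≠ 0)
    {B : Polynomial (MvPolynomial σ ℂ)} {P : ℕ →₀ Pool.Agent.H628R4.TP.weylS σ}
    (hB : ∀ k : ℕ, ((k : ℂ) + 1) • (B.eval (k : MvPolynomial σ ℂ) * F ^ k) =
      P.sum fun m Q => ((k : ℂ) ^ m) • (Q : Module.End ℂ (MvPolynomial σ ℂ)) (F ^ (k + 1))) :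
    Ev (B.eval (C (-1))) F (-1) := by
  classical
  intro L _ _ φ D Gi hD hG U h1 h2 h3 h4
  have h0 : Sq φ F Gi U (fun n => F ^ (n + 1)) :=
    ⟨0, Polynomial.C F, 1, fun n => by
      show F ^ 0 * F ^ (n + 1) = _
      rw [pow_zero, one_mul, Polynomial.eval_C, pow_succ'],
      by rw [Polynomial.eval_C, zero_add, pow_one, mul_one], by
        rw [Polynomial.derivative_C, Polynomial.eval_zero, map_zero, zero_mul]
        exact U.zero_mem⟩
  have h5 : Sq φ F Gi U (fun k => P.sum fun m Q => ((k : ℂ) ^ m) •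
      (Q : Module.End ℂ (MvPolynomial σ ℂ)) (F ^ (k + 1))) :=
    sq_sum hG P.support _ fun m _ => sq_pow h1 h3 hG m
      (sq_weyl hD hG h1 h2 h4 (P m).1 (P m).2 _ h0)
  obtain ⟨k, r, p, a1, b1, c1⟩ := h5
  have h6 : r = Polynomial.C (F ^ k) * ((Polynomial.X + 1) * B) := by
    rw [← sub_eq_zero]
    apply Polynomial.eq_zero_of_infinite_isRoot
    refine Set.Infinite.mono ?_ (Set.infinite_range_of_injective
      (f := fun n : ℕ => (n : MvPolynomial σ ℂ)) Nat.cast_injective)
    rintro _ ⟨n, rfl⟩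
    have h7 := a1 n
    simp only at h7
    rw [← hB n] at h7
    have h8 : ((n : ℂ) + 1) • (B.eval (n : MvPolynomial σ ℂ) * F ^ n) =
        ((n : MvPolynomial σ ℂ) + 1) * (B.eval (n : MvPolynomial σ ℂ) * F ^ n) := by
      rw [← C_mul', C_add, C_1]
      simp
    rw [h8] at h7
    have h9 : (r.eval (n : MvPolynomial σ ℂ) - F ^ k * (((n : MvPolynomial σ ℂ) + 1) *
        B.eval (n : MvPolynomial σ ℂ))) * F ^ n = 0 := by
      linear_combination -h7
    have h10 := (mul_eq_zero.1 h9).resolve_right (pow_ne_zero n hF)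
    show Polynomial.IsRoot _ _
    rw [Polynomial.IsRoot.def, Polynomial.eval_sub, Polynomial.eval_mul, Polynomial.eval_mul,
      Polynomial.eval_C, Polynomial.eval_add, Polynomial.eval_X, Polynomial.eval_one]
    exact h10
  have h7 : φ ((Polynomial.derivative r).eval (C (-1))) * Gi ^ k = φ (B.eval (C (-1))) := by
    rw [h6, Polynomial.derivative_C_mul, Polynomial.derivative_mul, Polynomial.derivative_add,
      Polynomial.derivative_X, Polynomial.derivative_one, Polynomial.eval_mul, Polynomial.eval_C,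
      Polynomial.eval_add, Polynomial.eval_mul, Polynomial.eval_mul, Polynomial.eval_add,
      Polynomial.eval_add, Polynomial.eval_X, Polynomial.eval_one, Polynomial.eval_zero]
    have h8 : ((C (-1) : MvPolynomial σ ℂ) + 1) = 0 := by
      rw [map_neg, map_one]
      ring
    rw [h8, zero_mul, add_zero, add_zero, one_mul, map_mul]
    linear_combination φ (B.eval (C (-1))) * pow_cancel hG k
  rw [← h7]
  exact c1

end Pool.Agent.K9h41.TS
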