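import Pool.Agent.N103.V.Cross
import Pool.Agent.N103.V.NodeB

set_option autoImplicit false
set_option linter.unusedSectionVars false
set_option linter.unusedVariables false
set_option linter.unusedSimpArgs false

/-! # The zeta function of a point as a polynomial in the factor of the numerical data `(1, 1)` -/

namespace Pool.Agent.K9h41.TS

open Pool.Agent.W574.SM Pool.Agent.N103 Pool.Agent.N103.V

open Polynomial

section Gen

variable {R : Type} [CommRing R] (Φ : ℕ → ℕ → R) (l : R)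

/-- the local factors, with a variable instead of `Φ 1 1` -/
noncomputable def fY (a n : ℕ) : R[X] := if a = 1 ∧ n = 1 then X else C (Φ a n)

theorem fY_eval (a n : ℕ) : (fY Φ a n).eval (Φ 1 1) = Φ a n := by
  rw [fY]
  split_ifs with h
  · rw [eval_X, h.1, h.2]
  · rw [eval_C]

theorem fY_C {a n : ℕ} (h : ¬ (a = 1 ∧ n = 1)) : fY Φ a n = C (Φ a n) := by
  rw [fY, if_neg h]

theorem fY_deg (a n : ℕ) : (fY Φ a n).natDegree ≤ 1 := by
  rw [fY]
  split_ifs with h
  · exact natDegree_X_le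
  · rw [natDegree_C]
    exact Nat.zero_le 1

/-- the polynomials with coefficients in a subring -/
noncomputable def DP (D : Subring R) : Subring R[X] where
  carrier := {p | ∀ i, p.coeff i ∈ D}
  mul_mem' := by
    intro p q hp hq i
    rw [coeff_mul]
    exact Subring.sum_mem _ fun x _ => Subring.mul_mem _ (hp _) (hq _)
  one_mem' := by
    intro i
    rw [coeff_one]
    split_ifs
    · exact Subring.one_mem _
    · exact Subring.zero_mem _
  add_mem' := by
    intro p q hp hq i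
    rw [coeff_add]
    exact Subring.add_mem _ (hp i) (hq i)
  zero_mem' := fun i => by
    rw [coeff_zero]
    exact Subring.zero_mem _
  neg_mem' := by
    intro p hp i
    rw [coeff_neg]
    exact Subring.neg_mem _ (hp i)

theorem C_mem_DP {D : Subring R} {x : R} (hx : x ∈ D) : C x ∈ DP D := by
  intro i
  rw [coeff_C]
  split_ifs
  · exact hx
  · exact Subring.zero_mem _

theorem X_mem_DP (D : Subring R) : (X : R[X]) ∈ DP D := by
  intro i
  rw [coeff_X]
  split_ifs
  · exact Subring.one_mem _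
  · exact Subring.zero_mem _

variable {Φ l}

theorem zdata_Y {D : Subring R} (hD : ZData D (-1) Φ l) : ZData (DP D) (-1) (fY Φ) (C l) where
  one := by
    rw [fY_C Φ (by decide), hD.one, map_one]
  ell := C_mem_DP hD.ell
  reg := by
    intro a n hn h
    rw [fY_C]
    · exact C_mem_DP (hD.reg a n hn h)
    · rintro ⟨rfl, rfl⟩
      apply h
      norm_num
  beta := by
    intro u1 k1 u2 k2 h0 hk1 hk2 hz1 hz2 h1 h2
    have e1 : fY Φ u1 k1 = C (Φ u1 k1) := by
      apply fY_C
      rintro ⟨rfl, rfl⟩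
      apply h1
      norm_num
    have e2 : fY Φ u2 k2 = C (Φ u2 k2) := by
      apply fY_C
      rintro ⟨rfl, rfl⟩
      apply h2
      norm_num
    have e3 : fY Φ (u1 + u2) (k1 + k2) = C (Φ (u1 + u2) (k1 + k2)) := by
      apply fY_C
      omega
    have h4 := C_mem_DP (hD.beta u1 k1 u2 k2 h0 hk1 hk2 hz1 hz2 h1 h2)
    rw [e1, e2, e3]
    simpa using h4
  pass := by
    intro a n u k ha hu hn hk h0 h1
    have e1 : fY Φ (a + u) (n + k) = C (Φ (a + u) (n + k)) := by
      apply fY_C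
      omega
    have e2 : fY Φ u k = C (Φ u k) := by
      apply fY_C
      rintro ⟨rfl, rfl⟩
      apply h1
      norm_num
    by_cases h : a = 1 ∧ n = 1
    · obtain ⟨rfl, rfl⟩ := h
      rw [e1, e2, ← C_sub]
      refine Subring.mul_mem _ (C_mem_DP (Subring.sub_mem _ (hD.reg _ _ (by omega) ?_)
        (hD.reg _ _ hk ?_))) ?_
      · intro h2
        apply h1
        push_cast at h2
        linear_combination h2
      · rw [mul_comm]
        exact h1
      · rw [fY, if_pos ⟨rfl, rfl⟩]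
        exact X_mem_DP _
    · have h3 := C_mem_DP (hD.pass a n u k ha hu hn hk h0 h1)
      rw [e1, e2, fY_C Φ h]
      simpa using h3

end Gen

section Lift

variable {R : Type} [CommRing R] {Φ : ℕ → ℕ → R} {l : R}
variable {κ : Type} [Fintype κ] [DecidableEq κ]
variable {h : MP} {f : Option κ → MP} {a : ℕ} {c : κ → ℂ} {Pt : Fin 2 → ℂ}
variable {H : MvPolynomial (Fin 2 ⊕ κ) ℂ}

theorem tfY_eval (a : ℕ) (t : Bool) :
    (typeFactor (fY Φ) a t).eval (Φ 1 1) = typeFactor Φ a t := by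
  rcases t with _ | _
  · exact eval_one
  · exact fY_eval Φ a 1

theorem tfY_deg (a : ℕ) (t : Bool) : (typeFactor (fY Φ) a t).natDegree ≤ 1 := by
  rcases t with _ | _
  · show (1 : R[X]).natDegree ≤ 1
    rw [natDegree_one]
    exact Nat.zero_le 1
  · exact fY_deg Φ a 1

theorem degY_one {p q : R[X]} (hp : p.natDegree ≤ 1) (hq : q.natDegree ≤ 1)
    (h : p.natDegree = 0 ∨ q.natDegree = 0) (x : R) : (C x * p * q).natDegree ≤ 1 := by
  refine natDegree_mul_le.trans ?_
  have h1 : (C x * p).natDegree ≤ p.natDegree := natDegree_C_mul_le x p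
  rcases h with h | h <;> omega

/-- the factors which are not constant do not meet -/
theorem exists_liftY (hH : MvPolynomial.eval (Sum.elim Pt c) H ≠ 0)
    (hE : Ev H (FF h f a) (-1)) {h' : MP} {g : Option κ → MP} {a0 n0 a1 n1 : ℕ} {Z : R}
    (hZ : GermZeta Φ l a h' g a0 n0 a1 n1 Z) :
    1 ≤ n0 → 1 ≤ n1 → ¬ (a0 = 1 ∧ n0 = 1) → ¬ (a1 = 1 ∧ n1 = 1) →
    Nonempty (GeomD h f a c Pt h' g a0 n0 a1 n1) →
    ∃ Y : R[X], GermZeta (fY Φ) (C l) a h' g a0 n0 a1 n1 Y ∧ Y.eval (Φ 1 1) = Z ∧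
      Y.natDegree ≤ 1 := by
  classical
  induction hZ with
  | unit h' g a0 n0 a1 n1 hh t ht =>
    intro hn0 hn1 hz0 hz1 hG
    refine ⟨_, GermZeta.unit h' g a0 n0 a1 n1 hh t ht, ?_, ?_⟩
    · rw [eval_mul, eval_mul, fY_eval, fY_eval, tfY_eval]
    · rw [fY_C Φ hz0, fY_C Φ hz1]
      exact degY_one (by rw [natDegree_C]; exact Nat.zero_le 1) (tfY_deg a t)
        (Or.inl (natDegree_C _)) _
  | curveV h' g a0 n0 mh mg hm q kh k hh hg h0 h1 hkh t ht =>
    intro hn0 hn1 hz0 hz1 hG
    refine ⟨_, GermZeta.curveV h' g a0 n0 mh mg hm q kh k hh hg h0 h1 hkh t ht, ?_, ?_⟩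
    · rw [eval_mul, eval_mul, fY_eval, fY_eval, tfY_eval]
    · rw [fY_C Φ hz0]
      refine degY_one (fY_deg Φ _ _) (tfY_deg a t) ?_ _
      rcases t with _ | _
      · exact Or.inr natDegree_one
      · by_cases hc : mh + a * mg = 1 ∧ a = 1
        · exfalso
          obtain ⟨G⟩ := hG
          have ht' : MvPolynomial.constantCoeff (k none) = 0 ∧ ∃ j,
            MvPolynomial.constantCoeff (k (some j)) ≠ 0 := ht
          obtain ⟨hk0, j, hj⟩ := ht'
          exact cross_leaf hH hc.2 G mh mg hc.1 hE q kh k hh hg h0 h1 hkh hk0 j hj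
        · by_cases hc1 : mh + a * mg = 1
          · right
            show (fY Φ a 1).natDegree = 0
            rw [fY_C Φ (fun h => hc ⟨hc1, h.1⟩), natDegree_C]
          · left
            rw [fY_C Φ (fun h => hc1 h.1), natDegree_C]
  | curveU h' g a1 n1 mh mg hm q kh k hh hg h0 h1 hkh t ht =>
    intro hn0 hn1 hz0 hz1 hG
    refine ⟨_, GermZeta.curveU h' g a1 n1 mh mg hm q kh k hh hg h0 h1 hkh t ht, ?_, ?_⟩
    · rw [eval_mul, eval_mul, fY_eval, fY_eval, tfY_eval]
    · rw [fY_C Φ hz1]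
      refine degY_one (fY_deg Φ _ _) (tfY_deg a t) ?_ _
      rcases t with _ | _
      · exact Or.inr natDegree_one
      · by_cases hc : mh + a * mg = 1 ∧ a = 1
        · exfalso
          obtain ⟨G⟩ := hG
          have ht' : MvPolynomial.constantCoeff (k none) = 0 ∧ ∃ j,
            MvPolynomial.constantCoeff (k (some j)) ≠ 0 := ht
          obtain ⟨hk0, j, hj⟩ := ht'
          refine cross_leaf hH hc.2 G.swap mh mg hc.1 hE (sw q) (sw kh) (fun j => sw (k j))
            (by rw [hh, map_mul, map_pow]) (fun j => by rw [hg, map_mul, map_pow])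
            (by rwa [cc_sw]) ?_ (by rwa [cc_sw]) (by rw [cc_sw]; exact hk0) j
            (by rw [cc_sw]; exact hj)
          rw [(pderiv_sw q).2, cc_sw]
          exact h1
        · by_cases hc1 : mh + a * mg = 1
          · right
            show (fY Φ a 1).natDegree = 0
            rw [fY_C Φ (fun h => hc ⟨hc1, h.1⟩), natDegree_C]
          · left
            rw [fY_C Φ (fun h => hc1 h.1), natDegree_C]
  | blowup h' g a0 n0 a1 n1 mh mg hm hc gc hI gI hhc hgc hhI hgI S h0S t hS Zc ZI hz0 hcS hZI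
      ih0 ihc ihI =>
    intro hn0 hn1 hy0 hy1 hG
    obtain ⟨G⟩ := hG
    obtain ⟨Y0, hY0, e0, d0⟩ := ih0 (by omega) hn1 (by omega) hy1
      ⟨G.child0 hn0 hn1 mh mg (hc 0) (gc 0) (hhc 0) (hgc 0)⟩
    obtain ⟨YI, hYI, eI, dI⟩ := ihI hn0 (by omega) hy0 (by omega)
      ⟨G.childI hn0 hn1 mh mg hI gI hhI hgI⟩
    have hch : ∀ c' : ℂ, ∃ Y : R[X], (c' ∈ S → c' ≠ 0 →
        GermZeta (fY Φ) (C l) a (hc c') (gc c') (a0 + a1 + (mh + a * mg)) (n0 + n1) 0 1 Y ∧
          Y.eval (Φ 1 1) = Zc c' ∧ Y.natDegree ≤ 1) := by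
      intro c'
      by_cases hcS : c' ∈ S ∧ c' ≠ 0
      · obtain ⟨Y, hY, e⟩ := ihc c' hcS.1 hcS.2 (by omega) le_rfl (by omega) (by omega)
          ⟨G.child hn0 hn1 mh mg c' hcS.2 (hc c') (gc c') (hhc c') (hgc c')⟩
        exact ⟨Y, fun _ _ => ⟨hY, e⟩⟩
      · exact ⟨0, fun h1 h2 => absurd ⟨h1, h2⟩ hcS⟩
    choose Y hY using hch
    let Yc : ℂ → R[X] := fun c' => if c' = 0 then Y0 else Y c'
    have hYc : ∀ c' ∈ S, (Yc c').eval (Φ 1 1) = Zc c' ∧ (Yc c').natDegree ≤ 1 := by
      intro c' hcS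
      by_cases h : c' = 0
      · simp only [Yc, if_pos h]
        rw [h]
        exact ⟨e0, d0⟩
      · simp only [Yc, if_neg h]
        exact (hY c' hcS h).2
    refine ⟨_, GermZeta.blowup h' g a0 n0 a1 n1 mh mg hm hc gc hI gI hhc hgc hhI hgI S h0S t hS Yc
      YI ?_ ?_ hYI, ?_, ?_⟩
    · simp only [Yc, if_pos]
      exact hY0
    · intro c' hcS h
      simp only [Yc, if_neg h]
      exact (hY c' hcS h).1
    · rw [eval_add, eval_add, eval_finsetSum, eI, Finset.sum_congr rfl fun c' hc' => (hYc c' hc').1,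
        eval_mul, eval_mul, fY_eval, tfY_eval, eval_sub, eval_C, eval_natCast]
    · refine (natDegree_add_le _ _).trans (max_le ((natDegree_add_le _ _).trans (max_le dI ?_)) ?_)
      · exact natDegree_sum_le_of_forall_le _ _ fun c' hc' => (hYc c' hc').2
      · have h2 : fY Φ (a0 + a1 + (mh + a * mg)) (n0 + n1)
          = C (Φ (a0 + a1 + (mh + a * mg)) (n0 + n1)) := fY_C Φ (by omega)
        have h3 : (C l - (S.card : R[X])) * (fY Φ (a0 + a1 + (mh + a * mg)) (n0 + n1) *
            typeFactor (fY Φ) a t)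
            = C (l - (S.card : R)) * C (Φ (a0 + a1 + (mh + a * mg)) (n0 + n1)) *
              typeFactor (fY Φ) a t := by
          rw [h2, C_sub, C_eq_natCast]
          ring
        rw [h3]
        exact degY_one (by rw [natDegree_C]; exact Nat.zero_le 1) (tfY_deg a t)
          (Or.inl (natDegree_C _)) _

/-- **The contribution of a point is `y₀ + y₁ Φ(1, 1)`** with `y₀`, `y₁` regular at `-1`, if the
evaluated functional equation holds at `-1`. -/
theorem point_simpleY (hF : FF h f a ≠ 0) (hH : MvPolynomial.eval (Sum.elim Pt c) H ≠ 0)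
    (ha : 1 ≤ a) (hE : Ev H (FF h f a) (-1)) {D : Subring R} (hD : ZData D (-1) Φ l)
    {Z : R} (hZ : PointZeta Φ l h f a Pt c Z) : ∃ y₀ ∈ D, ∃ y₁ ∈ D, Z = y₀ + y₁ * Φ 1 1 := by
  obtain ⟨Y, hY, e, d⟩ := exists_liftY (c := c) (Pt := Pt) (h := h) (f := f) hH hE hZ le_rfl le_rfl
    (by decide) (by decide) ⟨geomInit h f a c Pt⟩
  have h1 : Y ∈ DP D := by
    refine point_reg hF hH ha hE (zdata_Y hD) (Or.inr fun N hN => ?_) hY
    by_cases hN1 : N = 1
    · rw [hN1, fY, if_pos ⟨rfl, rfl⟩]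
      exact X_mem_DP _
    · rw [fY_C Φ (fun h => hN1 h.1)]
      refine C_mem_DP (hD.reg _ _ le_rfl ?_)
      intro h2
      apply hN1
      push_cast at h2
      have h3 : (N : ℂ) = 1 := by linear_combination -h2
      exact_mod_cast h3
  refine ⟨Y.coeff 0, h1 0, Y.coeff 1, h1 1, ?_⟩
  rw [← e]
  conv_lhs => rw [eq_X_add_C_of_natDegree_le_one d]
  simp
  ring

end Lift

end Pool.Agent.K9h41.TS
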