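import Pool.Agent.K9h41.TS.Series
import Pool.Agent.K9h41.TS.EvRF
import Pool.Agent.K9h41.TS.Lift
import Pool.Agent.Y475.TL.L
import Pool.Agent.Y229.SP5
import Pool.Agent.K9h41.TS.Single

set_option autoImplicit false
set_option linter.unusedSectionVars false
set_option linter.unusedVariables false
set_option linter.unusedSimpArgs false

/-! # The reduced series of `h (f₀ + ∑ y_j f_j) ^ a` -/

namespace Pool.Agent.K9h41.TS

open MvPolynomial Pool.Agent.W574.MO Pool.Agent.W574.SM Pool.Agent.W574.LM Pool.Agent.W574.HS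
  Pool.Agent.W574.CN Pool.Agent.Y229 Pool.Agent.Y230.TL Pool.Agent.N103
open Pool.Agent.W574.RO hiding FF
open Pool.Agent.N103.V (Ev)

/-- division by the variable -/
theorem of_X_mul {M : Type} [CommRing M] {L : Mˣ} {K : ℕ → ℕ → Prop} (Z : PowerSeries M)
    (h : PowerSeries.X * Z ∈ DenRing L K) : Z ∈ DenRing L K := by
  obtain ⟨s, hs, h1⟩ := exists_dp h
  refine mem_of_dp s hs ?_
  obtain ⟨N, hN⟩ := h1
  refine ⟨N, fun e he => ?_⟩
  have h2 := hN (e + 1) (by omega)
  have h3 : dp L s * (PowerSeries.X * Z) = PowerSeries.X * (dp L s * Z) := by ring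
  rwa [h3, PowerSeries.coeff_succ_X_mul] at h2

section Val

variable {κ : Type}

theorem val_tf (a : ℕ) (t : Bool) : Val (typeFactor (mf LL) a t) 1 := by
  rcases t with _ | _
  · have := val_C 1
    rwa [map_one, map_one] at this
  · have := val_mf a 1 le_rfl fun _ => rfl
    rwa [div_self (lf_ne 1 le_rfl)] at this

theorem val_localA {a : ℕ} {h : MP} {g : Option κ → MP} {a0 n0 a1 n1 : ℕ} {Z : PowerSeries AA}
    (hZ : GermZeta (mf LL) (PowerSeries.C ((LL : AAˣ) : AA)) a h g a0 n0 a1 n1 Z)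
    (hn0 : 1 ≤ n0) (hn1 : 1 ≤ n1) (hz0 : a0 = 0 → n0 = 1) (hz1 : a1 = 0 → n1 = 1) :
    Val Z ((lf 1 - 1) / (lf n0 - 1) * ((lf 1 - 1) / (lf n1 - 1))) := by
  classical
  induction hZ with
  | unit h g a0 n0 a1 n1 hh t ht =>
    have := ((val_mf a0 n0 hn0 hz0).mul (val_mf a1 n1 hn1 hz1)).mul (val_tf a t)
    rwa [mul_one] at this
  | curveV h g a0 n0 mh mg hm q kh k hh hg h0 h1 hkh t ht =>
    have := ((val_mf a0 n0 hn0 hz0).mul (val_mf (mh + a * mg) 1 le_rfl fun _ => rfl)).mul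
      (val_tf a t)
    rwa [mul_one] at this
  | curveU h g a1 n1 mh mg hm q kh k hh hg h0 h1 hkh t ht =>
    rw [mul_comm ((lf 1 - 1) / (lf 1 - 1))]
    have := ((val_mf a1 n1 hn1 hz1).mul (val_mf (mh + a * mg) 1 le_rfl fun _ => rfl)).mul
      (val_tf a t)
    rwa [mul_one] at this
  | blowup h g a0 n0 a1 n1 mh mg hm hc gc hI gI hhc hgc hhI hgI S h0S t hS Zc ZI hZ0 hcS hZI
      ih0 ihc ihI =>
    have hnn : 1 ≤ n0 + n1 := by omega
    have e0 := ih0 hnn hn1 (fun h => by omega) hz1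
    have eI := ihI hn0 hnn hz0 (fun h => by omega)
    set v : ℂ → Pool.Agent.W574.RO.FF := fun c => if c = 0 then (lf 1 - 1) / (lf (n0 + n1) - 1) *
      ((lf 1 - 1) / (lf n1 - 1)) else (lf 1 - 1) / (lf (n0 + n1) - 1) with hv
    have hsum := Val.sum S Zc v fun c hcS' => by
      by_cases h : c = 0
      · rw [hv]
        simp only [if_pos h]
        rw [h]
        exact e0
      · rw [hv]
        simp only [if_neg h]
        have := ihc c hcS' h hnn le_rfl (fun h => by omega) (fun _ => rfl)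
        rwa [div_self (lf_ne 1 le_rfl), mul_one] at this
    have hE := (val_C ((LL : AA) - (S.card : AA))).mul
      ((val_mf (a0 + a1 + (mh + a * mg)) (n0 + n1) hnn (fun h => by omega)).mul (val_tf a t))
    rw [map_sub, map_natCast] at hE
    have hall := (eI.add hsum).add hE
    convert hall using 1
    have h1 : ∑ c ∈ S, v c = (lf 1 - 1) / (lf (n0 + n1) - 1) * ((lf 1 - 1) / (lf n1 - 1)) +
        ((S.card : Pool.Agent.W574.RO.FF) - 1) * ((lf 1 - 1) / (lf (n0 + n1) - 1)) := by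
      rw [← Finset.add_sum_erase S v h0S]
      congr 1
      · rw [hv]
        simp only [if_true]
      · rw [Finset.sum_congr rfl (g := fun _ => (lf 1 - 1) / (lf (n0 + n1) - 1)) fun c hc => ?_]
        · rw [Finset.sum_const, Finset.card_erase_of_mem h0S, nsmul_eq_mul,
            Nat.cast_sub (Finset.card_pos.2 ⟨0, h0S⟩), Nat.cast_one]
        · rw [hv]
          simp only [if_neg (Finset.ne_of_mem_erase hc)]
    rw [h1, map_sub, map_natCast]
    have h3 : algebraMap AA Pool.Agent.W574.RO.FF (LL : AA) = lf 1 := by rw [lf, pow_one]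
    have g0 := lf_ne n0 hn0
    have g1 := lf_ne n1 hn1
    have g2 := lf_ne (n0 + n1) hnn
    rw [h3]
    have h4 := lf_mul n0 n1
    field_simp
    rw [h4]
    ring

/-- the series `(c - X Z) / (1 - X)` -/
theorem tail_mem_of_val' {K : ℕ → ℕ → Prop} {Z : PowerSeries AA} {c : AA}
    (hZ : Z ∈ DenRing LL K) (hv : Val Z (algebraMap AA Pool.Agent.W574.RO.FF c)) :
    tail c Z ∈ DenRing LL K := by
  obtain ⟨s, hs, P, hP⟩ := exists_denom hZ
  obtain ⟨D, N, h1, h2, h3⟩ := hv
  rw [← map_mul] at h3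
  have h4 : N.eval 1 = c * D.eval 1 := IsFractionRing.injective AA Pool.Agent.W574.RO.FF h3
  have h5 : D * P = dprod s * N := by
    apply Polynomial.coe_injective
    rw [Polynomial.coe_mul, Polynomial.coe_mul, ← hP, ← h1]
    ring
  have h6 := congrArg (Polynomial.eval 1) h5
  rw [Polynomial.eval_mul, Polynomial.eval_mul, h4] at h6
  have h7 : P.eval 1 = c * (dprod s).eval 1 := by
    apply mul_left_cancel₀ h2
    rw [h6]
    ring
  have h8 : (Polynomial.X - Polynomial.C 1 : Polynomial AA) ∣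
      Polynomial.X * P - Polynomial.C c * dprod s := by
    rw [Polynomial.dvd_iff_isRoot, Polynomial.IsRoot, Polynomial.eval_sub, Polynomial.eval_mul,
      Polynomial.eval_X, one_mul, Polynomial.eval_mul, Polynomial.eval_C, h7, sub_self]
  obtain ⟨Q, hQ⟩ := h8
  refine mem_of_denom s hs Q ?_
  apply one_sub_X_cancel
  have h9 := congrArg (fun q : Polynomial AA => (q : PowerSeries AA)) hQ
  simp only [Polynomial.coe_sub, Polynomial.coe_mul, Polynomial.coe_X, map_one,
    Polynomial.coe_one, Polynomial.coe_C] at h9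
  have h10 := tail_eq c Z
  linear_combination (dprod s : PowerSeries AA) * h10 - PowerSeries.X * hP - h9

end Val

section Point

variable {κ : Type} [Fintype κ] [DecidableEq κ]
variable {h : MP} {f : Option κ → MP} {a : ℕ} {c : κ → ℂ} {Pt : Fin 2 → ℂ}

/-- the series of the volumes of `ord ≥ e` -/
theorem point_tail {M : Type} [CommRing M] (L : Mˣ) (hF : FF h f a ≠ 0) (ha : 1 ≤ a)
    (Z : PowerSeries M) (hZ : PointZeta (mf L) (PowerSeries.C (L : M)) h f a Pt c Z) :
    tail 1 Z ∈ DenRing L (Pool.Agent.Y229.KL (fun _ : Fin 1 => FF h f a) (Sum.elim Pt c)) := by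
  classical
  obtain ⟨Z0, hZ0, rfl⟩ := exists_univA L hZ
  rw [← Phi_tail]
  apply Phi_mem
  apply tail_mem_of_val
  · obtain ⟨s, hs, Q, hQ⟩ := exists_denom (mem_allA LL hZ0 le_rfl le_rfl)
    refine descent (Pool.Agent.Y229.KL (fun _ : Fin 1 => FF h f a) (Sum.elim Pt c)) Z0 s
      (fun p hp => ⟨(hs p hp).1, (hs p hp).2.1⟩) ?_ Q hQ
    intro a' n ha' hn hne
    have hac : (a' : ℂ) ≠ 0 := Nat.cast_ne_zero.2 (by omega)
    obtain ⟨H, b, hb, hH, hbn⟩ : ∃ (H : MvPolynomial (Fin 2 ⊕ κ) ℂ) (b : Polynomial ℂ),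
        IsLocEq H (fun _ : Fin 1 => FF h f a) b ∧ eval (Sum.elim Pt c) H ≠ 0 ∧
          b.eval (-(n : ℂ) / a') ≠ 0 := by
      by_contra h
      push Not at h
      exact hne h
    have h2 := Pool.Agent.N103.point_reg (heq_of_locEq _ _ _ hb) hF hH ha hbn
      (zdata_mot LL (-(n : ℂ) / a')) hZ0
    refine Subring.closure_mono (Set.union_subset_union_right _ ?_) h2
    rintro u ⟨a1, n1, ha1, hn1, hK, hu⟩
    refine ⟨a1, n1, ha1, hn1, ?_, hu⟩
    intro h3
    apply hK
    have h4 : (n : ℂ) * a1 = n1 * a' := by exact_mod_cast h3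
    field_simp
    linear_combination -h4
  · have := val_localA hZ0 le_rfl le_rfl (fun _ => rfl) (fun _ => rfl)
    rwa [div_self (lf_ne 1 le_rfl), one_mul] at this

/-- from the ring of the functions without a pole at `-n/a'` -/
theorem kn_mono {a' n : ℕ} (ha' : 1 ≤ a') {Z : PowerSeries AA}
    (hZ : Z ∈ DenRing LL (Kn (-(n : ℂ) / a'))) :
    Z ∈ DenRing LL (fun a1 n1 => n * a1 ≠ n1 * a') := by
  have hac : (a' : ℂ) ≠ 0 := Nat.cast_ne_zero.2 (by omega)
  refine Subring.closure_mono (Set.union_subset_union_right _ ?_) hZ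
  rintro u ⟨a1, n1, ha1, hn1, hK, hu⟩
  refine ⟨a1, n1, ha1, hn1, ?_, hu⟩
  intro h3
  apply hK
  have h4 : (n : ℂ) * a1 = n1 * a' := by exact_mod_cast h3
  field_simp
  linear_combination -h4

/-- the reduced series from the volumes -/
theorem redu_mem {M : Type} [CommRing M] {L : Mˣ} {K : ℕ → ℕ → Prop} {Z : PowerSeries M}
    (h : tail 1 Z ∈ DenRing L K) : redu L Z ∈ DenRing L K := by
  apply of_X_mul
  rw [redu_eq]
  exact (DenRing L K).sub_mem ((DenRing L K).mul_mem ((DenRing L K).sub_mem (C_mem _) X_mem) h)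
    (C_mem _)

/-- **The reduced series**, over the ring `ℤ[L, L⁻¹]`. -/
theorem point_redu0 (hL : StL) (hF : FF h f a ≠ 0) (ha : 1 ≤ a) (Z0 : PowerSeries AA)
    (hZ0 : PointZeta (mf LL) (PowerSeries.C ((LL : AAˣ) : AA)) h f a Pt c Z0) :
    redu LL Z0 ∈ DenRing LL (fun a' n => RF (FF h f a) (Sum.elim Pt c) (-(n : ℂ) / a')) := by
  classical
  have hv : Val Z0 1 := by
    have := val_localA hZ0 le_rfl le_rfl (fun _ => rfl) (fun _ => rfl)
    rwa [div_self (lf_ne 1 le_rfl), one_mul] at this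
  have hall : Z0 ∈ DenRing LL (fun _ _ => True) := mem_allA LL hZ0 le_rfl le_rfl
  obtain ⟨s, hs, Q, hQ⟩ := exists_denom (redu_mem (tail_mem_of_val hall hv))
  refine descent (fun a' n => RF (FF h f a) (Sum.elim Pt c) (-(n : ℂ) / a')) _ s
    (fun p hp => ⟨(hs p hp).1, (hs p hp).2.1⟩) ?_ Q hQ
  intro a' n ha' hn hne
  have hac : (a' : ℂ) ≠ 0 := Nat.cast_ne_zero.2 (by omega)
  apply kn_mono ha'
  by_cases h1 : -(n : ℂ) / a' = -1
  · rw [h1] at hne ⊢
    obtain ⟨B, P, hB, hne'⟩ : ∃ (B : Polynomial (MvPolynomial (Fin 2 ⊕ κ) ℂ))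
        (P : ℕ →₀ weyl (Fin 2 ⊕ κ)), RE (FF h f a) B P ∧
          eval (Sum.elim Pt c) (B.eval (C (-1))) ≠ 0 := by
      by_contra h
      push Not at h
      exact hne h
    have hE : Ev (B.eval (C (-1))) (FF h f a) (-1) := ev_of_re (P := P) hF hB
    obtain ⟨y0, hy0, y1, hy1, e⟩ := point_simpleY hF hne' ha hE (zdata_mot LL (-1)) hZ0
    set K := Kn (-1) with hK
    -- the series `V = (1 - L⁻¹ T) Z`
    have hgeo := geo_mul LL (le_refl 1) 1
    have hV : (1 - qq LL 1 1) * Z0 ∈ DenRing LL K := by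
      have e1 : (1 - qq LL 1 1) * Z0 =
          (1 - qq LL 1 1) * y0 + y1 * (PowerSeries.C ((LL : AA) - 1) * qq LL 1 1) := by
        rw [e, mf_pos LL (le_refl 1)]
        linear_combination (y1 * (PowerSeries.C ((LL : AA) - 1) * qq LL 1 1)) * hgeo
      rw [e1]
      exact (DenRing LL K).add_mem
        ((DenRing LL K).mul_mem ((DenRing LL K).sub_mem (DenRing LL K).one_mem (qq_mem _ _)) hy0)
        ((DenRing LL K).mul_mem hy1 ((DenRing LL K).mul_mem (C_mem _) (qq_mem _ _)))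
    have hVal : Val ((1 - qq LL 1 1) * Z0)
        (algebraMap AA Pool.Agent.W574.RO.FF ((dn (1, 1)).eval 1)) := by
      have h2 : Val (1 - qq LL 1 1) (algebraMap AA Pool.Agent.W574.RO.FF ((dn (1, 1)).eval 1)) :=
        ⟨1, dn (1, 1), by rw [coe_dn, Polynomial.coe_one, one_mul], by simp, by simp⟩
      have h3 := h2.mul hv
      rwa [mul_one] at h3
    have hT := tail_mem_of_val' hV hVal
    apply of_X_mul
    have e2 : (dn (1, 1)).eval 1 = 1 - ((LL⁻¹ : AAˣ) : AA) := by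
      rw [dn]
      simp
    have e3 : (1 - qq LL 1 1) * tail 1 Z0 = tail ((dn (1, 1)).eval 1) ((1 - qq LL 1 1) * Z0) +
        PowerSeries.C ((LL⁻¹ : AAˣ) : AA) := by
      apply one_sub_X_cancel
      have t1 := tail_eq 1 Z0
      have t2 := tail_eq ((dn (1, 1)).eval 1) ((1 - qq LL 1 1) * Z0)
      rw [map_one] at t1
      have t3 : (qq LL 1 1 : PowerSeries AA) = PowerSeries.C ((LL⁻¹ : AAˣ) : AA) * PowerSeries.X := by
        rw [qq, pow_one, pow_one]
      have t4 : (PowerSeries.C ((dn (1, 1)).eval 1) : PowerSeries AA) =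
          1 - PowerSeries.C ((LL⁻¹ : AAˣ) : AA) := by
        rw [e2, map_sub, map_one]
      rw [t4] at t2
      linear_combination (1 - qq LL 1 1) * t1 - t2 - t3
    have e4 : PowerSeries.X * redu LL Z0 = PowerSeries.C (LL : AA) *
        (tail ((dn (1, 1)).eval 1) ((1 - qq LL 1 1) * Z0) + PowerSeries.C ((LL⁻¹ : AAˣ) : AA)) -
          PowerSeries.C (LL : AA) := by
      rw [redu_eq, CL_sub, ← e3]
      ring
    rw [e4]
    exact (DenRing LL K).sub_mem ((DenRing LL K).mul_mem (C_mem _)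
      ((DenRing LL K).add_mem hT (C_mem _))) (C_mem _)
  · have hsf : ¬ SF (fun _ : Fin 1 => FF h f a) (Sum.elim Pt c) (-(n : ℂ) / a') :=
      fun h2 => hne (hL.rf_of_sf _ _ _ h1 h2)
    obtain ⟨H, b, hb, hH, hbn⟩ : ∃ (H : MvPolynomial (Fin 2 ⊕ κ) ℂ) (b : Polynomial ℂ),
        IsLocEq H (fun _ : Fin 1 => FF h f a) b ∧ eval (Sum.elim Pt c) H ≠ 0 ∧
          b.eval (-(n : ℂ) / a') ≠ 0 := by
      by_contra h
      push Not at h
      exact hsf (sf_of_local _ _ _ h (exists_fe _ ⟨(0 : Fin 1), hF⟩))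
    have h2 := Pool.Agent.N103.point_reg (heq_of_locEq _ _ _ hb) hF hH ha hbn
      (zdata_mot LL (-(n : ℂ) / a')) hZ0
    exact redu_mem (tail_mem_of_val h2 hv)

/-- **The reduced series.** -/
theorem point_redu {M : Type} [CommRing M] (L : Mˣ) (hL : StL) (hF : FF h f a ≠ 0) (ha : 1 ≤ a)
    (Z : PowerSeries M) (hZ : PointZeta (mf L) (PowerSeries.C (L : M)) h f a Pt c Z) :
    redu L Z ∈ DenRing L (fun a' n => RF (FF h f a) (Sum.elim Pt c) (-(n : ℂ) / a')) := by
  obtain ⟨Z0, hZ0, rfl⟩ := exists_univA L hZ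
  rw [← Phi_redu]
  exact Phi_mem L (point_redu0 hL hF ha Z0 hZ0)

end Point

end Pool.Agent.K9h41.TS
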