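import Pool.Agent.K9h41.TS.Defs
import Pool.Agent.K9h41.TS.LinRed
import Pool.Agent.W574.RO.Main
import Pool.Agent.Y229.SP6
import Pool.Agent.Y448.TL.J
import Pool.Agent.Y64.TL.ExpB
import Pool.Agent.Y230.TL.U
import Pool.Agent.Y230.TL.A

set_option autoImplicit false
set_option linter.unusedSectionVars false
set_option linter.unusedVariables false
set_option maxHeartbeats 400000

/-! # Local motivic zeta functions of Thom-Sebastiani sums: the induction -/

namespace Pool.Agent.K9h41.TS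

open Pool.Agent.W574.MO Pool.Agent.W574.SM Pool.Agent.W574.LM Pool.Agent.W574.HS
  Pool.Agent.W574.CN Pool.Agent.Y229 Pool.Agent.Y230.TL Pool.Agent.N103
open Pool.Agent.W574.RO hiding FF
open Pool.Agent.H628R4.TP (IsLocalBFunction)

theorem add_frac {a n a' n' l : ℕ} (ha : 1 ≤ a) (ha' : 1 ≤ a') (hl : 1 ≤ l) (hal : a ∣ l)
    (hal' : a' ∣ l) : (-(n : ℂ) / a) + (-(n' : ℂ) / a') =
      -((n * (l / a) + n' * (l / a') : ℕ) : ℂ) / l := by
  obtain ⟨k, rfl⟩ := hal
  obtain ⟨k', hk'⟩ := hal'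
  have e1 : a * k / a = k := Nat.mul_div_cancel_left k (by omega)
  have e2 : a * k / a' = k' := by rw [hk']; exact Nat.mul_div_cancel_left k' (by omega)
  rw [e1, e2]
  have ha0 : (a : ℂ) ≠ 0 := Nat.cast_ne_zero.2 (by omega)
  have ha0' : (a' : ℂ) ≠ 0 := Nat.cast_ne_zero.2 (by omega)
  have hk0 : ((a * k : ℕ) : ℂ) ≠ 0 := Nat.cast_ne_zero.2 (by omega)
  have hk1 : (a : ℂ) * k = a' * k' := by exact_mod_cast hk'
  push_cast at hk0 ⊢
  rw [div_add_div _ _ ha0 ha0', div_eq_div_iff (mul_ne_zero ha0 ha0') hk0]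
  linear_combination (-(a : ℂ) * n') * hk1

theorem sum_ne {A B : Fam} (h : ∃ j, A.f j ≠ 0) : ∃ j, (A.sum B).f j ≠ 0 := by
  obtain ⟨j, hj⟩ := h
  refine ⟨Sum.inl j, ?_⟩
  change MvPolynomial.rename Sum.inl (A.f j) ≠ 0
  rw [Ne, map_eq_zero_iff _ (MvPolynomial.rename_injective _ Sum.inl_injective)]
  exact hj

theorem mul_ne {A B : Fam} (h : ∃ j, A.f j ≠ 0) (h' : ∃ j, B.f j ≠ 0) :
    ∃ j, (A.mul B).f j ≠ 0 := by
  obtain ⟨j, hj⟩ := h
  obtain ⟨k, hk⟩ := h'
  refine ⟨(j, k), ?_⟩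
  change (MvPolynomial.rename Sum.inl (A.f j) * MvPolynomial.rename Sum.inr (B.f k) :
    MvPolynomial (A.σ ⊕ B.σ) ℂ) ≠ 0
  refine mul_ne_zero ?_ ?_
  · rw [Ne, map_eq_zero_iff _ (MvPolynomial.rename_injective _ Sum.inl_injective)]
    exact hj
  · rw [Ne, map_eq_zero_iff _ (MvPolynomial.rename_injective _ Sum.inr_injective)]
    exact hk

theorem tsFam_ne (A : Fam) (τ : Type) (g : MvPolynomial τ ℂ) (hg : g ≠ 0) :
    (tsFam A τ g).f 0 ≠ 0 := by
  intro h0
  apply hg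
  have h1 : (MvPolynomial.rename Sum.inl (∑ j, MvPolynomial.X (Sum.inl j) *
    MvPolynomial.rename Sum.inr (A.f j) : MvPolynomial (A.ι ⊕ A.σ) ℂ) +
      MvPolynomial.rename Sum.inr g : MvPolynomial ((A.ι ⊕ A.σ) ⊕ τ) ℂ) = 0 := h0
  set ε : (A.ι ⊕ A.σ) ⊕ τ → MvPolynomial τ ℂ :=
    Sum.elim (Sum.elim (fun _ : A.ι => 0) (fun _ : A.σ => 0)) MvPolynomial.X with hε
  have h2 := congrArg (MvPolynomial.aeval ε :
    MvPolynomial ((A.ι ⊕ A.σ) ⊕ τ) ℂ → MvPolynomial τ ℂ) h1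
  rw [map_add, MvPolynomial.aeval_rename, MvPolynomial.aeval_rename, map_zero] at h2
  have e1 : ε ∘ Sum.inr = MvPolynomial.X := rfl
  rw [e1, MvPolynomial.aeval_X_left_apply, map_sum] at h2
  rw [Finset.sum_eq_zero, zero_add] at h2
  · exact h2
  · intro j _
    rw [map_mul, MvPolynomial.aeval_X]
    simp [hε]

theorem univFam_ne (A : Fam) (hA : ∃ j, A.f j ≠ 0) : (univFam A).f 0 ≠ 0 := by
  classical
  exact univ_ne_zero A.f hA

theorem sf_univFam (hU : StU) (A : Fam) (s : ℂ) (h : SF A.f 0 s) :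
    RF ((univFam A).f 0) 0 s := by
  classical
  have h1 := hU A.f 0 s h
  have e : (Sum.elim (fun _ => 0) 0 : A.ι ⊕ A.σ → ℂ) = 0 := by
    funext x
    rcases x with x | x <;> rfl
  rw [e] at h1
  exact h1

theorem rf_tsFam (hJ : StJ) (hL : StL) (A : Fam) (τ : Type) (g : MvPolynomial τ ℂ) (hg : g ≠ 0)
    (α β : ℂ) (hα : SF A.f 0 α) (hβ : RF g 0 β) : RF ((tsFam A τ g).f 0) 0 (α + β) := by
  classical
  have h1 := hJ A.f g hg 0 0 α β hα hβ
  have e : (Sum.elim (fun _ => 0) (Sum.elim 0 0) : A.ι ⊕ (A.σ ⊕ τ) → ℂ) =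
      (0 : (A.ι ⊕ A.σ) ⊕ τ → ℂ) ∘ (Equiv.sumAssoc A.ι A.σ τ).symm := by
    funext x
    rcases x with x | x | x <;> rfl
  rw [e] at h1
  have h2 := hL.equiv (Equiv.sumAssoc A.ι A.σ τ).symm _ 0 (α + β) h1
  have e2 : MvPolynomial.rename (Equiv.sumAssoc A.ι A.σ τ).symm
      (univ (fun j => MvPolynomial.rename Sum.inl (A.f j)) +
        MvPolynomial.rename Sum.inr (MvPolynomial.rename Sum.inr g) :
          MvPolynomial (A.ι ⊕ (A.σ ⊕ τ)) ℂ) = (tsFam A τ g).f 0 := by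
    change _ = MvPolynomial.rename Sum.inl
      (∑ j, MvPolynomial.X (Sum.inl j) * MvPolynomial.rename Sum.inr (A.f j) :
        MvPolynomial (A.ι ⊕ A.σ) ℂ) + MvPolynomial.rename Sum.inr g
    rw [map_add, MvPolynomial.rename_rename, MvPolynomial.rename_rename]
    congr 1
    rw [univ, map_sum, map_sum]
    refine Finset.sum_congr rfl fun i _ => ?_
    rw [map_mul, map_mul, MvPolynomial.rename_X,
      MvPolynomial.rename_X, MvPolynomial.rename_rename,
      MvPolynomial.rename_rename, MvPolynomial.rename_rename]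
    rfl
  rw [e2] at h2
  exact h2

theorem rf_equiv (hL : StL) {σ τ : Type} (e : σ ≃ τ) (g : MvPolynomial σ ℂ) (s : ℂ)
    (h : RF g 0 s) : RF (MvPolynomial.rename e g) 0 s :=
  hL.equiv e g 0 s h

theorem rf_drop (hL : StL) {σ κ : Type} (g : MvPolynomial σ ℂ) (s : ℂ)
    (h : RF (MvPolynomial.rename Sum.inl g : MvPolynomial (σ ⊕ κ) ℂ) 0 s) : RF g 0 s := by
  refine hL.drop (κ := κ) g 0 0 s ?_
  have : (Sum.elim (0 : σ → ℂ) (0 : κ → ℂ)) = 0 := by
    funext x
    rcases x with x | x <;> rfl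
  rw [this]
  exact h

variable {M : Type} [CommRing M]

/-- the denominators of the reduced series -/
def KR (A : Fam) (a n : ℕ) : Prop := ∀ j, RF (A.f j) 0 (-(n : ℂ) / a)

/-- the properties of the members of the classes -/
structure Inv (L : Mˣ) (c : Bool) (A : Fam) (Z : PowerSeries M) : Prop where
  fin : Finite A.σ
  ne : ∃ j, A.f j ≠ 0
  tl : tail 1 Z ∈ DenRing L (KS A.f 0)
  rd : c = true → redu L Z ∈ DenRing L (KR A)

theorem ks_of_kr (hL : StL) {σ : Type} (F : MvPolynomial σ ℂ) (a n : ℕ)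
    (h : KR ⟨σ, Fin 1, fun _ => F⟩ a n) : KS (fun _ : Fin 1 => F) 0 a n :=
  hL.sf_of_rf F 0 _ (h (0 : Fin 1))

/-- the volumes from the reduced series -/
theorem tail_of_kr {L : Mˣ} (hL : StL) {σ : Type} [Finite σ] (F : MvPolynomial σ ℂ) (hF : F ≠ 0)
    (h0 : MvPolynomial.constantCoeff F = 0) {Z : PowerSeries M}
    (h : redu L Z ∈ DenRing L (KR ⟨σ, Fin 1, fun _ => F⟩)) :
    tail 1 Z ∈ DenRing L (KS (fun _ : Fin 1 => F) 0) := by
  rw [tail_of_redu]
  refine (DenRing L _).mul_mem ((DenRing L _).add_mem (DenRing L _).one_mem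
    ((DenRing L _).mul_mem ((DenRing L _).mul_mem (C_mem _) X_mem)
      (denRing_mono (fun a n _ _ h => ks_of_kr hL F a n h) h))) (geo_mem le_rfl le_rfl ?_)
  have := sf_minus_one F hF h0
  have e : (-((1 : ℕ) : ℂ) / ((1 : ℕ) : ℂ)) = -1 := by norm_num
  rw [KS, e]
  exact this

/-- **The induction.** -/
theorem closure (hJ : StJ) (hU : StU) (hL : StL) {L : Mˣ} (c : Bool) (A : Fam) (Z : PowerSeries M)
    (h : MotTS L c A Z) : Inv L c A Z := by
  classical
  induction h with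
  | germ A Z h =>
    obtain ⟨h1, h2, h3⟩ := germ_main A Z h
    exact ⟨h1, h2, h3, fun h0 => absurd h0 (by simp)⟩
  | lin κ h f a ha hF Z hZ =>
    have h3 : (Sum.elim (0 : Fin 2 → ℂ) (0 : κ → ℂ)) = 0 := by
      funext x
      rcases x with x | x <;> rfl
    refine ⟨inferInstanceAs (Finite (Fin 2 ⊕ κ)), ⟨(0 : Fin 1), hF⟩, ?_, fun _ => ?_⟩
    · have h1 := point_tail L hF ha Z hZ
      rw [h3] at h1
      refine denRing_mono (fun x n _ _ h2 => ?_) h1
      exact sf_of_local _ 0 _ h2 (exists_fe _ ⟨(0 : Fin 1), hF⟩)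
    · have h1 := point_redu L hL hF ha Z hZ
      rw [h3] at h1
      refine denRing_mono (fun x n _ _ h2 j => ?_) h1
      exact h2
  | hyp A Z h ih => exact ⟨ih.fin, ih.ne, ih.tl, fun h0 => absurd h0 (by simp)⟩
  | sum A B Z W hA hB ihA ihB =>
    have := ihA.fin
    have := ihB.fin
    refine ⟨inferInstanceAs (Finite (A.σ ⊕ B.σ)), sum_ne ihA.ne, ?_, fun h0 => absurd h0 (by simp)⟩
    rw [tail_min]
    refine had_mem ihA.tl ihB.tl fun a n a' n' l ha hn hK ha' hn' hK' hl hal hal' => ?_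
    have h1 := sf_sum A.f B.f 0 0 _ _ hK hK'
    have h3 : (Sum.elim (0 : A.σ → ℂ) (0 : B.σ → ℂ)) = 0 := by
      funext x
      rcases x with x | x <;> rfl
    rw [add_frac ha ha' hl hal hal', h3] at h1
    exact h1
  | mul A B Z W hA hB ihA ihB =>
    have := ihA.fin
    have := ihB.fin
    have hneA := ihA.ne
    have hneB := ihB.ne
    have h3 : (Sum.elim (0 : A.σ → ℂ) (0 : B.σ → ℂ)) = 0 := by
      funext x
      rcases x with x | x <;> rfl
    refine ⟨inferInstanceAs (Finite (A.σ ⊕ B.σ)), mul_ne hneA hneB, ?_,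
      fun h0 => absurd h0 (by simp)⟩
    refine tail_mul_mem (denRing_mono (fun a n _ _ h => ?_) ihA.tl)
      (denRing_mono (fun a n _ _ h => ?_) ihB.tl)
    · have h1 := sf_mul A.f B.f 0 0 _ h hneB
      rw [h3] at h1
      exact h1
    · have h1 := sf_mul' A.f B.f 0 0 _ h hneA
      rw [h3] at h1
      exact h1
  | univ A Z hA ihA =>
    have hfA := ihA.fin
    have hneA := ihA.ne
    have hfin : Finite (A.ι ⊕ A.σ) := inferInstance
    have hz : MvPolynomial.constantCoeff (∑ j, MvPolynomial.X (Sum.inl j) *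
        MvPolynomial.rename Sum.inr (A.f j) : MvPolynomial (A.ι ⊕ A.σ) ℂ) = 0 := by
      rw [map_sum]
      refine Finset.sum_eq_zero fun j _ => ?_
      rw [map_mul, MvPolynomial.constantCoeff_X, zero_mul]
    have hrd : redu L (Z * mf L 1 1) ∈ DenRing L (KR (univFam A)) := by
      rw [redu_univ]
      exact (DenRing L _).mul_mem (C_mem _)
        (denRing_mono (fun a n _ _ h _ => sf_univFam hU A _ h) ihA.tl)
    exact ⟨hfin, ⟨(0 : Fin 1), univFam_ne A hneA⟩,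
      tail_of_kr (σ := A.ι ⊕ A.σ) hL _ (univFam_ne A hneA) hz hrd, fun _ => hrd⟩
  | ts A τ g Z W h0 hA hg ihA ihg =>
    have hfA := ihA.fin
    have hfg : Finite τ := ihg.fin
    have hneA := ihA.ne
    have hg0 : g ≠ 0 := by
      obtain ⟨j, hj⟩ := ihg.ne
      exact hj
    have hfin : Finite ((A.ι ⊕ A.σ) ⊕ τ) := inferInstance
    have hz : MvPolynomial.constantCoeff (MvPolynomial.rename Sum.inl
        (∑ j, MvPolynomial.X (Sum.inl j) * MvPolynomial.rename Sum.inr (A.f j) :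
          MvPolynomial (A.ι ⊕ A.σ) ℂ) + MvPolynomial.rename Sum.inr g :
            MvPolynomial ((A.ι ⊕ A.σ) ⊕ τ) ℂ) = 0 := by
      rw [map_add, MvPolynomial.constantCoeff_rename, MvPolynomial.constantCoeff_rename, h0,
        add_zero, map_sum]
      refine Finset.sum_eq_zero fun j _ => ?_
      rw [map_mul, MvPolynomial.constantCoeff_X, zero_mul]
    have hrd : redu L (tsSeries L Z W) ∈ DenRing L (KR (tsFam A τ g)) := by
      rw [redu_ts]
      refine had_mem ihA.tl (ihg.rd rfl)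
        fun a n a' n' l ha hn hK ha' hn' hK' hl hal hal' j => ?_
      have h1 := rf_tsFam hJ hL A τ g hg0 _ _ hK (hK' (0 : Fin 1))
      rw [add_frac ha ha' hl hal hal'] at h1
      exact h1
    exact ⟨hfin, ⟨(0 : Fin 1), tsFam_ne A τ g hg0⟩,
      tail_of_kr (σ := (A.ι ⊕ A.σ) ⊕ τ) hL _ (tsFam_ne A τ g hg0) hz hrd, fun _ => hrd⟩
  | drop σ κ g Z h ih =>
    have hf : Finite (σ ⊕ κ) := ih.fin
    have hf' : Finite σ := Finite.of_injective (Sum.inl : σ → σ ⊕ κ) Sum.inl_injective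
    have hg0 : g ≠ 0 := by
      rintro rfl
      obtain ⟨j, hj⟩ := ih.ne
      exact hj (map_zero _)
    refine ⟨hf', ⟨(0 : Fin 1), hg0⟩, denRing_mono (fun a n _ _ h1 => ?_) ih.tl,
      fun h0 => denRing_mono (fun a n _ _ h1 j => ?_) (ih.rd h0)⟩
    · by_cases h2 : -(n : ℂ) / a = -1
      · rw [KS, h2]
        refine sf_minus_one g hg0 ?_
        have h3 : MvPolynomial.constantCoeff
            (MvPolynomial.rename Sum.inl g : MvPolynomial (σ ⊕ κ) ℂ) = 0 := zero_of_sf _ _ h1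
        rwa [MvPolynomial.constantCoeff_rename] at h3
      · exact hL.sf_of_rf g 0 _ (rf_drop hL (κ := κ) g _ (hL.rf_of_sf _ 0 _ h2 h1))
    · exact rf_drop hL (κ := κ) g _ (h1 (0 : Fin 1))
  | equiv c A B i k h Z hA ihA =>
    have hf := ihA.fin
    refine ⟨Finite.of_equiv A.σ i, ?_, denRing_mono (fun a n _ _ hS => ?_) ihA.tl,
      fun h0 => denRing_mono (fun a n _ _ hS j => ?_) (ihA.rd h0)⟩
    · obtain ⟨j, hj⟩ := ihA.ne
      refine ⟨k j, ?_⟩
      rw [h, Ne, map_eq_zero_iff _ (MvPolynomial.rename_injective _ i.injective)]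
      exact hj
    · exact sf_equiv i k A.f B.f h 0 _ hS
    · obtain ⟨j', rfl⟩ := k.surjective j
      rw [h]
      exact rf_equiv hL i _ _ (hS j')

/-- **The local motivic monodromy conjecture for the hypersurfaces in the class.** -/
theorem ts_main {L : Mˣ} {σ : Type} (F : MvPolynomial σ ℂ) (Z : PowerSeries M)
    (h : MotTS L false ⟨σ, Fin 1, fun _ => F⟩ Z) (b : Polynomial ℂ) (hb : IsLocalBFunction F b) :
    Z ∈ DenRing L (RootPair b) := by
  classical
  have hI := closure (Pool.Agent.Y448.TL.tJ Pool.Agent.Y230.TL.tA Pool.Agent.Y64.TL.tB)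
    (Pool.Agent.Y230.TL.tU Pool.Agent.Y64.TL.tB) Pool.Agent.Y475.TL.tL false _ Z h
  obtain ⟨j, hj⟩ := hI.ne
  have := hI.fin
  exact denRing_mono (fun a n _ _ h1 => root_of_sf hI.fin F hj _ h1 b hb) (mem_of_tail hI.tl)

end Pool.Agent.K9h41.TS
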