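import Pool.Agent.Y229.SPDefs
import Pool.Agent.N103.ZDefs
import Pool.Agent.W574.MO.Point

set_option autoImplicit false

/-! # Local motivic zeta functions of the Thom-Sebastiani sums `∑ y_j f_j(x) + g(z)`: the classes

`M` is a commutative ring with a unit `L`. The main example is `M = K₀(Var_ℂ)[1/L]`, the
Grothendieck ring of complex varieties, localized at the class `L` of the affine line. The
variable of the ring `M⟦X⟧` of formal power series is denoted by `T` in the comments.

The local motivic zeta function at the origin of an ideal `I` of the polynomial ring in `n`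
variables is `∫_{φ(0) = 0} T^(ord φ^* I) dμ`, the integral over the arcs `φ` with the origin
`φ(0) = 0`. Below the measure `μ` is normalized such that the set of these arcs has the volume `1`
(in the usual normalization, its volume is `L⁻ⁿ`). -/

namespace Pool.Agent.K9h41.TS

open MvPolynomial Pool.Agent.W574.SM Pool.Agent.W574.MO Pool.Agent.W574.CN Pool.Agent.W574.RO
open Pool.Agent.Y229
open Pool.Agent.N103 (PointZeta)

variable {M : Type} [CommRing M]

/-- The polynomial `∑ y_j f_j(x)`, for a family `A = (f_j)`, as a family with one member. -/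
@[reducible] noncomputable def univFam (A : Fam) : Fam :=
  ⟨A.ι ⊕ A.σ, Fin 1, fun _ => ∑ j, X (Sum.inl j) * rename Sum.inr (A.f j)⟩

/-- The polynomial `∑ y_j f_j(x) + g(z)`, for a family `A = (f_j)`, as a family with one member. -/
@[reducible] noncomputable def tsFam (A : Fam) (τ : Type) (g : MvPolynomial τ ℂ) : Fam :=
  ⟨(A.ι ⊕ A.σ) ⊕ τ, Fin 1, fun _ => rename Sum.inl
    (∑ j, X (Sum.inl j) * rename Sum.inr (A.f j)) + rename Sum.inr g⟩

/-- The local motivic zeta function of `F = ∑ y_j f_j(x) + g(z)`, `g(0) = 0`, at the origin: let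
`Z = ∑ z_e T^e` be the one of the ideal `(f_j)` and `W = ∑ w_e T^e` the one of `g`. If the order of
`(f_j)` along the arc `x(t)` is `i`, then `∑ y_j(t) f_j(x(t))`, `y(0) = 0`, is uniformly distributed in
`t^(i + 1) ℂ⟦t⟧`. So if the order of `g` along `z(t)` is `e ≤ i`, then the order of `F` is `e`, and
if it is `> i`, then the order of `F` is `e > i` with the probability `(1 - L⁻¹) L^(-(e - i - 1))`;
the volumes of `ord (f_j) ≥ e` and of `ord g > i` are `1 - ∑_{k < e} z_k` and `1 - ∑_{k ≤ i} w_k`. -/
noncomputable def tsSeries (L : Mˣ) (Z W : PowerSeries M) : PowerSeries M := PowerSeries.mk fun e =>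
  PowerSeries.coeff e W * (1 - ∑ k ∈ Finset.range e, PowerSeries.coeff k Z) +
    ∑ i ∈ Finset.range e, PowerSeries.coeff i Z *
      (1 - ∑ k ∈ Finset.range (i + 1), PowerSeries.coeff k W) *
        ((1 - ((L⁻¹ : Mˣ) : M)) * ((L⁻¹ ^ (e - i - 1) : Mˣ) : M))

/-- Two classes of germs of ideals at the origin, given by generators, together with their local
motivic zeta functions, normalized such that the arcs with the origin `0` have the volume `1`:
`MotTS L false A Z` for ideals and `MotTS L true A Z` for principal ideals (hypersurfaces). They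
are the smallest classes with the following properties. -/
inductive MotTS (L : Mˣ) : Bool → Fam → PowerSeries M → Prop
  /-- the ideals in `Germ`: the unit ideal, powers of a variable, non-zero ideals of `ℂ[x, y]`,
  ideals of `ℂ[x₀, x₁, x₂]` generated by forms of the same degree, three of which are
  algebraically independent, ideals generated by forms of the same degree without a common zero
  outside the origin, and their sums and products in disjoint sets of variables -/
  | germ (A : Fam) (Z : PowerSeries M) (h : Germ L A Z) : MotTS L false A Z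
  /-- the hypersurface `F = h(x₁, x₂) (f₀(x₁, x₂) + ∑ y_j f_j(x₁, x₂)) ^ a`, `F ≠ 0`, with arbitrary
  polynomials `h`, `f₀`, `f_j` and further variables `y_j` (without the `y_j`: all plane curves);
  `PointZeta` computes its zeta function by blowing up points of the plane -/
  | lin (κ : Type) [Fintype κ] (h : MvPolynomial (Fin 2) ℂ)
      (f : Option κ → MvPolynomial (Fin 2) ℂ) (a : ℕ) (ha : 1 ≤ a)
      (hF : Pool.Agent.N103.FF h f a ≠ 0) (Z : PowerSeries M)
      (hZ : PointZeta (mf L) (PowerSeries.C (L : M)) h f a 0 0 Z) :
      MotTS L true ⟨Fin 2 ⊕ κ, Fin 1, fun _ => Pool.Agent.N103.FF h f a⟩ Z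
  /-- a hypersurface is a principal ideal -/
  | hyp (A : Fam) (Z : PowerSeries M) (h : MotTS L true A Z) : MotTS L false A Z
  /-- the sum of two ideals in disjoint sets of variables: the order is the minimum of the orders,
  see `sumSeries` -/
  | sum (A B : Fam) (Z W : PowerSeries M) (hA : MotTS L false A Z) (hB : MotTS L false B W) :
      MotTS L false (A.sum B) (sumSeries Z W)
  /-- the product of two ideals in disjoint sets of variables: the orders are added -/
  | mul (A B : Fam) (Z W : PowerSeries M) (hA : MotTS L false A Z) (hB : MotTS L false B W) :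
      MotTS L false (A.mul B) (Z * W)
  /-- the hypersurface `∑ y_j f_j(x) = 0`: as in `tsSeries`, with `ord g = ∞` -/
  | univ (A : Fam) (Z : PowerSeries M) (hA : MotTS L false A Z) :
      MotTS L true (univFam A) (Z * mf L 1 1)
  /-- the Thom-Sebastiani sum `∑ y_j f_j(x) + g(z)`, `g(0) = 0` -/
  | ts (A : Fam) (τ : Type) (g : MvPolynomial τ ℂ) (Z W : PowerSeries M)
      (h0 : constantCoeff g = 0)
      (hA : MotTS L false A Z) (hg : MotTS L true ⟨τ, Fin 1, fun _ => g⟩ W) :
      MotTS L true (tsFam A τ g) (tsSeries L Z W)
  /-- variables which do not occur may be dropped -/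
  | drop (σ κ : Type) (g : MvPolynomial σ ℂ) (Z : PowerSeries M)
      (h : MotTS L true ⟨σ ⊕ κ, Fin 1, fun _ => rename Sum.inl g⟩ Z) :
      MotTS L true ⟨σ, Fin 1, fun _ => g⟩ Z
  /-- the variables and the generators may be indexed differently -/
  | equiv (c : Bool) (A B : Fam) (i : A.σ ≃ B.σ) (k : A.ι ≃ B.ι)
      (h : ∀ j, B.f (k j) = rename i (A.f j)) (Z : PowerSeries M) (hA : MotTS L c A Z) :
      MotTS L c B Z

end Pool.Agent.K9h41.TS
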