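import Pool.Agent.K9h41.TS.Defs
import Pool.Agent.W574.RO.One

set_option autoImplicit false
set_option linter.unusedSectionVars false
set_option linter.unusedVariables false

/-! # The reduced series -/

namespace Pool.Agent.K9h41.TS

open PowerSeries Pool.Agent.W574.MO Pool.Agent.W574.RO

variable {M : Type} [CommRing M] (L : Mˣ)

/-- `∑_e (L W_{e+1} - W_e) T^e`, where `W_e` is the volume of `ord ≥ e` -/
noncomputable def redu (Z : M⟦X⟧) : M⟦X⟧ :=
  PowerSeries.mk fun e => (L : M) * coeff (e + 1) (tail 1 Z) - coeff e (tail 1 Z)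

theorem coeff_redu (Z : M⟦X⟧) (e : ℕ) :
    coeff e (redu L Z) = (L : M) * coeff (e + 1) (tail 1 Z) - coeff e (tail 1 Z) := coeff_mk _ _

theorem redu_eq (Z : M⟦X⟧) :
    X * redu L Z = (C (L : M) - X) * tail 1 Z - C (L : M) := by
  ext e
  rw [map_sub, sub_mul, map_sub]
  rcases e with _ | e
  · rw [coeff_zero_X_mul, coeff_zero_X_mul, coeff_C_mul, coeff_tail, Finset.range_zero,
      Finset.sum_empty, coeff_C, if_pos rfl]
    ring
  · rw [coeff_succ_X_mul, coeff_succ_X_mul, coeff_C_mul, coeff_redu, coeff_C,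
      if_neg (Nat.succ_ne_zero e)]
    ring

theorem X_cancel {A B : M⟦X⟧} (h : X * A = X * B) : A = B := by
  ext e
  have := congrArg (coeff (e + 1)) h
  rwa [coeff_succ_X_mul, coeff_succ_X_mul] at this

theorem eq_redu {Z R : M⟦X⟧} (h : X * R = (C (L : M) - X) * tail 1 Z - C (L : M)) :
    R = redu L Z := X_cancel (h.trans (redu_eq L Z).symm)

theorem CL_sub : (C (L : M) - X : M⟦X⟧) = C (L : M) * (1 - qq L 1 1) := by
  rw [qq, pow_one, pow_one, mul_sub, mul_one, ← mul_assoc, ← map_mul, Units.mul_inv, map_one,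
    one_mul]

/-- the volumes of `ord ≥ e` from the reduced series -/
theorem tail_of_redu (Z : M⟦X⟧) :
    tail 1 Z = (1 + C ((L⁻¹ : Mˣ) : M) * X * redu L Z) * geo L 1 1 := by
  have h1 := redu_eq L Z
  rw [CL_sub] at h1
  have h2 := geo_mul L (le_refl 1) 1
  have h3 : (C ((L⁻¹ : Mˣ) : M) : M⟦X⟧) * C (L : M) = 1 := by
    rw [← map_mul, Units.inv_mul, map_one]
  have h4 : (1 - qq L 1 1) * tail 1 Z = 1 + C ((L⁻¹ : Mˣ) : M) * X * redu L Z := by
    linear_combination (-(C ((L⁻¹ : Mˣ) : M))) * h1 +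
      (1 - (1 - qq L 1 1) * tail 1 Z) * h3
  linear_combination (geo L 1 1) * h4 - (tail 1 Z) * h2

/-- the reduced series of `∑ y_j f_j` -/
theorem redu_univ (Z : M⟦X⟧) : redu L (Z * mf L 1 1) = C ((L : M) - 1) * tail 1 Z := by
  symm
  apply eq_redu
  apply one_sub_X_cancel
  have h1 := tail_eq 1 Z
  have h2 := tail_eq 1 (Z * mf L 1 1)
  have h3 := geo_mul L (le_refl 1) 1
  have h4 := CL_sub L
  rw [mf_pos L (le_refl 1)] at h2 ⊢
  rw [map_one] at h1 h2
  have h5 : (qq L 1 1 : M⟦X⟧) = C ((L⁻¹ : Mˣ) : M) * X := by rw [qq, pow_one, pow_one]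
  have h6 : (C (L : M) : M⟦X⟧) * C ((L⁻¹ : Mˣ) : M) = 1 := by
    rw [← map_mul, Units.mul_inv, map_one]
  have h7 : (C (L : M) - X : M⟦X⟧) * (C ((L : M) - 1) * qq L 1 1 * geo L 1 1) =
      C ((L : M) - 1) * X := by
    rw [h4]
    calc C (L : M) * (1 - qq L 1 1) * (C ((L : M) - 1) * qq L 1 1 * geo L 1 1)
        = C ((L : M) - 1) * (C (L : M) * qq L 1 1) * ((1 - qq L 1 1) * geo L 1 1) := by ring
      _ = C ((L : M) - 1) * X := by
        rw [h3, mul_one, h5]
        linear_combination (C ((L : M) - 1) * X) * h6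
  have h8 : (C ((L : M) - 1) : M⟦X⟧) = C (L : M) - 1 := by rw [map_sub, map_one]
  rw [h8] at h2 h7 ⊢
  linear_combination (X * (C (L : M) - 1)) * h1 - (C (L : M) - X) * h2 + X * Z * h7

theorem Phi_redu (Z : PowerSeries AA) : Phi L (redu LL Z) = redu L (Phi L Z) := by
  ext e
  rw [coeff_redu, Phi, coeff_map, coeff_redu, map_sub, map_mul, phi_LL]
  have h := fun e => congrArg (coeff e) (Phi_tail L Z)
  simp only [Phi, coeff_map] at h
  rw [h, h]

/-- the volumes of `ord F ≥ e` for a Thom-Sebastiani sum -/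
theorem tail_ts (Z W : M⟦X⟧) (e : ℕ) :
    coeff e (tail 1 (tsSeries L Z W)) = coeff e (tail 1 Z) * coeff e (tail 1 W) +
      ∑ i ∈ Finset.range e, coeff i Z * coeff (i + 1) (tail 1 W) *
        ((L⁻¹ ^ (e - i - 1) : Mˣ) : M) := by
  have hs : ∀ e : ℕ, ∑ i ∈ Finset.range (e + 1), coeff i Z * coeff (i + 1) (tail 1 W) *
        ((L⁻¹ ^ (e + 1 - i - 1) : Mˣ) : M) = coeff e Z * coeff (e + 1) (tail 1 W) +
          ((L⁻¹ : Mˣ) : M) * ∑ i ∈ Finset.range e, coeff i Z * coeff (i + 1) (tail 1 W) *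
            ((L⁻¹ ^ (e - i - 1) : Mˣ) : M) := by
    intro e
    rw [Finset.sum_range_succ, add_comm, Finset.mul_sum]
    congr 1
    · have : e + 1 - e - 1 = 0 := by omega
      rw [this, pow_zero, Units.val_one, mul_one]
    · refine Finset.sum_congr rfl fun i hi => ?_
      have hi' := Finset.mem_range.1 hi
      have : e + 1 - i - 1 = (e - i - 1) + 1 := by omega
      rw [this, pow_succ, Units.val_mul]
      ring
  induction e with
  | zero =>
    rw [coeff_tail, coeff_tail, coeff_tail]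
    simp
  | succ e ih =>
    have h1 : coeff (e + 1) (tail 1 (tsSeries L Z W)) =
        coeff e (tail 1 (tsSeries L Z W)) - coeff e (tsSeries L Z W) := by
      rw [coeff_tail, coeff_tail, Finset.sum_range_succ]
      ring
    have h2 : ∀ Y : M⟦X⟧, coeff e Y = coeff e (tail 1 Y) - coeff (e + 1) (tail 1 Y) := by
      intro Y
      rw [coeff_tail, coeff_tail, Finset.sum_range_succ]
      ring
    have h3 : coeff e (tsSeries L Z W) = coeff e W * coeff e (tail 1 Z) +
        (1 - ((L⁻¹ : Mˣ) : M)) * ∑ i ∈ Finset.range e, coeff i Z * coeff (i + 1) (tail 1 W) *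
          ((L⁻¹ ^ (e - i - 1) : Mˣ) : M) := by
      rw [tsSeries, coeff_mk, coeff_tail, Finset.mul_sum]
      congr 1
      refine Finset.sum_congr rfl fun i _ => ?_
      rw [coeff_tail]
      ring
    rw [h1, ih, h3, hs e, h2 Z, h2 W]
    ring

/-- **The reduced series of a Thom-Sebastiani sum.** -/
theorem redu_ts (Z W : M⟦X⟧) : redu L (tsSeries L Z W) = had (tail 1 Z) (redu L W) := by
  ext e
  have hs : ∑ i ∈ Finset.range (e + 1), coeff i Z * coeff (i + 1) (tail 1 W) *
        ((L⁻¹ ^ (e + 1 - i - 1) : Mˣ) : M) = coeff e Z * coeff (e + 1) (tail 1 W) +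
          ((L⁻¹ : Mˣ) : M) * ∑ i ∈ Finset.range e, coeff i Z * coeff (i + 1) (tail 1 W) *
            ((L⁻¹ ^ (e - i - 1) : Mˣ) : M) := by
    rw [Finset.sum_range_succ, add_comm, Finset.mul_sum]
    congr 1
    · have : e + 1 - e - 1 = 0 := by omega
      rw [this, pow_zero, Units.val_one, mul_one]
    · refine Finset.sum_congr rfl fun i hi => ?_
      have hi' := Finset.mem_range.1 hi
      have : e + 1 - i - 1 = (e - i - 1) + 1 := by omega
      rw [this, pow_succ, Units.val_mul]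
      ring
  have h2 : coeff e Z = coeff e (tail 1 Z) - coeff (e + 1) (tail 1 Z) := by
    rw [coeff_tail, coeff_tail, Finset.sum_range_succ]
    ring
  rw [coeff_redu, coeff_had, coeff_redu, tail_ts, tail_ts, hs, h2]
  have h3 : (L : M) * ((L⁻¹ : Mˣ) : M) = 1 := Units.mul_inv L
  linear_combination (∑ i ∈ Finset.range e, coeff i Z * coeff (i + 1) (tail 1 W) *
    ((L⁻¹ ^ (e - i - 1) : Mˣ) : M)) * h3

end Pool.Agent.K9h41.TS
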